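import Pool.Agent.H51.TC.Def

/-!
# TC-GRP: the class `CF` is closed under quotients and subgroups and contains the nilpotent groups
-/

set_option autoImplicit false

namespace H51.TC

theorem cf_quot {G : Type} [Group G] (h : CF G) (W : Subgroup G) [hW : W.Normal] : CF (G ⧸ W) := by
  obtain ⟨k, j, N, h0, hk, hn, hs⟩ := h
  have hsur : Function.Surjective (QuotientGroup.mk' W) := QuotientGroup.mk'_surjective W
  refine ⟨k, j, fun i => (N i).map (QuotientGroup.mk' W), ?_, ?_, fun i => ?_, fun i hi => ?_⟩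
  · dsimp only
    rw [h0, Subgroup.map_bot]
  · dsimp only
    rw [hk]
    exact Subgroup.map_top_of_surjective _ hsur
  · exact (hn i).map _ hsur
  · obtain ⟨h1, h2, h3⟩ := hs i hi
    refine ⟨Subgroup.map_mono h1, fun hij x hx g => ?_, fun hij => ?_⟩
    · obtain ⟨x, hx, rfl⟩ := hx
      obtain ⟨g, rfl⟩ := hsur g
      exact ⟨g * x * g⁻¹ * x⁻¹, h2 hij x hx g, by simp⟩
    · have h4 := h3 hij
      rw [← Subgroup.relIndex_comap]
      exact (Subgroup.relIndex_dvd_of_le_left _ (Subgroup.le_comap_map _ _)).trans h4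

theorem cf_sub {G : Type} [Group G] (h : CF G) (H : Subgroup G) : CF H := by
  obtain ⟨k, j, N, h0, hk, hn, hs⟩ := h
  refine ⟨k, j, fun i => (N i).subgroupOf H, ?_, ?_, fun i => ?_, fun i hi => ?_⟩
  · dsimp only
    rw [h0]
    exact Subgroup.bot_subgroupOf H
  · dsimp only
    rw [hk]
    exact Subgroup.top_subgroupOf H
  · haveI := hn i
    exact Subgroup.normal_subgroupOf
  · obtain ⟨h1, h2, h3⟩ := hs i hi
    refine ⟨Subgroup.comap_mono h1, fun hij x hx g => ?_, fun hij => ?_⟩
    · exact h2 hij x hx g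
    · have h4 := h3 hij
      show ((N i).subgroupOf H).relIndex ((N (i + 1)).subgroupOf H) ∣ 4
      have h5 : ((N i).subgroupOf H).relIndex ((N (i + 1)).subgroupOf H) =
          (N i).relIndex (N (i + 1) ⊓ H) := by
        unfold Subgroup.subgroupOf
        rw [Subgroup.relIndex_comap, Subgroup.map_comap_eq, H.range_subtype, inf_comm]
      rw [h5]
      haveI := hn i
      haveI : ((N i).subgroupOf (N (i + 1))).Normal := Subgroup.normal_subgroupOf
      have h6 : (N i).relIndex (N (i + 1) ⊓ H) ∣ (N i).relIndex (N (i + 1)) := by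
        rw [← Subgroup.relIndex_subgroupOf (inf_le_left : N (i + 1) ⊓ H ≤ N (i + 1))]
        exact Subgroup.relIndex_dvd_index_of_normal _ _
      exact h6.trans h4

theorem cf_nil {G : Type} [Group G] (h : Group.IsNilpotent G) : CF G := by
  obtain ⟨n, hn⟩ := h.nilpotent'
  refine ⟨n, n, fun i => Subgroup.upperCentralSeries G i, Subgroup.upperCentralSeries_zero G, hn,
    fun i => inferInstance, fun i hi => ⟨Subgroup.upperCentralSeries_mono G (Nat.le_succ i),
      fun _ x hx g => ?_, fun h => absurd h hi.ne⟩⟩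
  rw [Subgroup.mem_upperCentralSeries_succ_iff] at hx
  have h1 := hx g
  have h2 : g * x * g⁻¹ * x⁻¹ = (x * g * x⁻¹ * g⁻¹)⁻¹ := by group
  rw [h2]
  exact Subgroup.inv_mem _ h1

end H51.TC
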