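import Pool.Agent.H51.TC.Fin
import Pool.Agent.H51.TC.Grp
import Pool.Agent.H38.AS.Dich

/-!
# TC-SC: the second centre case of T2, from `W1P` (the counting hypothesis for all groups in `CF`; theorem W1+)
-/

set_option autoImplicit false

open Filter Topology H38.ML

namespace H51.TC

/-- theorem W1+: the counting hypothesis holds for all groups in `CF` over all large number fields -/
def W1P : Prop :=
  ∀ n : ℕ, 1 ≤ n → ∃ K₃ : IntermediateField ℚ QBar, NumberField K₃ ∧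
    ∀ K : IntermediateField ℚ QBar, K₃ ≤ K → ∀ _ : NumberField K,
      ∀ (H : Type) (_ : Group H) (_ : Finite H), Nat.card H ∣ n → CF H → RB K QBar H

theorem sc_main (hW : W1P) {n : ℕ} (hn : 2 ≤ n) (G : Subgroup (Equiv.Perm (Fin n)))
    (hG : MulAction.IsPretransitive G (Fin n)) (hCF : CF G)
    (hZ : ∀ g : G, g ≠ 1 → ind (g : Equiv.Perm (Fin n)) = indG G →
      ∀ h k : G, k * (g * h * g⁻¹ * h⁻¹) = g * h * g⁻¹ * h⁻¹ * k)
    (hc : (∃ g : G, g ≠ 1 ∧ ind (g : Equiv.Perm (Fin n)) = indG G ∧ ∀ h : G, g * h = h * g) ∨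
      ∃ g h : G, g ≠ 1 ∧ ind (g : Equiv.Perm (Fin n)) = indG G ∧
        h ≠ 1 ∧ ind (h : Equiv.Perm (Fin n)) = indG G ∧ g * h ≠ h * g) :
    ∃ K₀ : IntermediateField ℚ QBar, NumberField K₀ ∧
      ∀ K : IntermediateField ℚ QBar, K₀ ≤ K → ∀ _ : NumberField K,
        ∃ C : ℝ, 0 < C ∧ ∃ k : ℝ → ℕ, (∀ B : ℝ, Spec.nK K QBar G B = (k B : ℕ∞)) ∧
          Tendsto (fun B : ℝ => (k B : ℝ) /
            (B ^ (1 / (Spec.indG G : ℝ)) * Real.log B ^ (Spec.betaAll K QBar G - 1)))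
            atTop (𝓝 C) := by
  have hc' : ∃ g : G, g ≠ 1 ∧ ind (g : Equiv.Perm (Fin n)) = indG G ∧ ∀ h : G, g * h = h * g := by
    rcases hc with h | ⟨g, h, hg1, hg, hh1, hh, hne⟩
    · exact h
    · exact H38.AS.dich hn G hG hZ g h hg1 hg hh1 hh hne
  obtain ⟨K₃, hK₃, h⟩ := hW (Nat.card G) Nat.card_pos
  exact fin_main hn G hG hZ hc' K₃ hK₃ fun K hK hKf => ⟨h K hK hKf G _ inferInstance (dvd_refl _)
    hCF, fun W _ => h K hK hKf (G ⧸ W) _ inferInstance (Subgroup.card_quotient_dvd_card W)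
    (cf_quot hCF W)⟩

end H51.TC
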