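import Pool.Agent.H51.TC.Cfa
import Pool.Agent.H51.TC.Sc
import Pool.Agent.H86.WP.Fin
import Pool.Agent.H88.A4.Fin1

/-!
# TC-W1P: the counting hypothesis `W1P` (complete)
-/

set_option autoImplicit false

open scoped NumberField
open IsDedekindDomain NumberField H38.ML H63.MA

noncomputable section

namespace H51.TC

theorem rb_of_rba (K : IntermediateField ℚ QBar) [NumberField K] (H : Type) [Group H]
    (h : ∀ Q : DP K QBar, H86.WP.RBA Q H) : RB K QBar H := by
  intro Q ε hε
  obtain ⟨C, hC0, hC⟩ := h Q ε hε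
  exact ⟨C, fun Y hY Rs hRs => hC Y hY Rs hRs⟩

theorem rb_cf (K : IntermediateField ℚ QBar) [NumberField K] (ω : K) (hω : IsPrimitiveRoot ω 3)
    (H : Type) [Group H] [Finite H] (h : CF H) : RB K QBar H := by
  obtain ⟨f, k, hf⟩ := cfa _ H le_rfl h
  exact rb_of_rba K H fun Q => H86.WP.rba_hyp Q f k hf
    (H86.WP.rba_a4 Q (H86.WP.rb_core ω hω (H88.A4.coreBound K ω hω) Q))

theorem w1p : W1P := by
  intro n _
  obtain ⟨z, hz⟩ : ∃ z : QBar, IsPrimitiveRoot z 3 :=
    HasEnoughRootsOfUnity.exists_primitiveRoot QBar 3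
  have hint : IsIntegral ℚ z := Algebra.IsIntegral.isIntegral z
  refine ⟨IntermediateField.adjoin ℚ {z}, ?_, fun K hK _ H _ _ _ hCF => ?_⟩
  · have : FiniteDimensional ℚ (IntermediateField.adjoin ℚ {z}) :=
      IntermediateField.adjoin.finiteDimensional hint
    exact { to_charZero := inferInstance, to_finiteDimensional := inferInstance }
  · have hzK : z ∈ K := hK (IntermediateField.mem_adjoin_simple_self ℚ z)
    refine rb_cf K ⟨z, hzK⟩ ?_ H hCF
    exact IsPrimitiveRoot.of_map_of_injective (f := algebraMap K QBar) hz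
      (algebraMap K QBar).injective

end H51.TC
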