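import Pool.Agent.H38.AS.Fin
import Pool.Agent.H63.BU.UMain

/-!
# TC-DEF: definitions for part (SC) of T2 (think 1061): the second centre case of H38/AS without nilpotency (complete)

`W = WS Dg` is the central subgroup of H38/AS.
* `RB K Ω H`: THE COUNTING HYPOTHESIS (W1+): for `H` a finite group: at most `C Y^(1+ε)` homomorphisms of finite type `Γ → H` whose ramified
  primes have norms with product at most `Y`. `RBL D L H`: the same for the primes outside `S0`.
* `HB D L H A`: the homomorphisms `Γ → H` of finite type, unramified outside `S0 ∪ A`.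
* `Ti Dg L φ i v`: type `i` without the condition that `nm v` is prime (`Ty` is `Ti` and `nm v` prime).
* `Aw E`: the subsets `A` of `E` such that all primes of `E ∖ A` have non-prime norm.
* `UA B a A E = B^(1/a) ∏_(v ∈ A) nm v^(-(a+1)/a) ∏_(v ∈ E ∖ A) nm v^(-1)`: the bound for the norm of the typed families.
* `CF G`: `G` has a normal series all of whose factors are central, except at most one, whose order divides 4.
-/

set_option autoImplicit false

open scoped NumberField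
open IsDedekindDomain
open scoped Classical

noncomputable section

namespace H51.TC

open H63.MA H38.BB H38.BG H38.AS H63.BU

section hyp

variable (K : Type) [Field K] [NumberField K] (Ω : Type) [Field Ω] [Algebra K Ω]

/-- the counting hypothesis: at most `C Y^(1+ε)` homomorphisms with product of the norms of the ramified primes `≤ Y` -/
def RB (H : Type) [Group H] : Prop :=
  ∀ (Q : DP K Ω) (ε : ℝ), 0 < ε → ∃ C : ℝ, ∀ Y : ℝ, 1 ≤ Y → ∀ Rs : Finset (Gal(Ω/K) →* H),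
    (∀ φ ∈ Rs, H38.ML.FT φ ∧ ∀ T : Finset (Pl K),
      (∀ v ∈ T, ∃ τ ∈ (Q.P v).inertia Gal(Ω/K), φ τ ≠ 1) → ∏ v ∈ T, (nm v : ℝ) ≤ Y) →
    (Rs.card : ℝ) ≤ C * Y ^ (1 + ε)

end hyp

section loc

variable {K : Type} [Field K] [NumberField K] {Ω : Type} [Field Ω] [Algebra K Ω]
  {p m u w N : ℕ} {ζ : K}

/-- the same outside `S0` -/
def RBL (D : RD0 K p ζ) (L : LDs D Ω) (H : Type) [Group H] : Prop :=
  ∀ ε : ℝ, 0 < ε → ∃ C : ℝ, ∀ Y : ℝ, 1 ≤ Y → ∀ Rs : Finset (Gal(Ω/K) →* H),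
    (∀ φ ∈ Rs, H38.ML.FT φ ∧ ∀ T : Finset (Pl K), (∀ v ∈ T, Rm L φ v) → nr T ≤ Y) →
    (Rs.card : ℝ) ≤ C * Y ^ (1 + ε)

/-- the homomorphisms unramified outside `S0 ∪ A` -/
def HB (D : RD0 K p ζ) (L : LDs D Ω) (H : Type) [Group H] (A : Finset (Pl K)) :
    Set (Gal(Ω/K) →* H) :=
  {β | H38.ML.FT β ∧ ∀ v, v ∉ D.S0 → v ∉ A → ∀ τ ∈ inr L v, β τ = 1}

/-- type `i`, any norm -/
def Ti {G : Type} [Group G] {D : RD0 K p ζ} (Dg : GT p m u w N G) (L : LDs D Ω)
    (φ : Gal(Ω/K) →* G) (i : Fin N) (v : Pl K) : Prop :=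
  v ∉ D.S0 ∧ IsConj (φ (L.t v)) (Dg.g i) ∧ ∀ τ ∈ inr L v, φ τ ^ p = 1

end loc

section wts

variable {K : Type} [Field K] [NumberField K]

/-- the subsets of `E` whose complement consists of primes of non-prime norm -/
def Aw (E : Finset (Pl K)) : Finset (Finset (Pl K)) :=
  E.powerset.filter fun A => ∀ v ∈ E \ A, ¬ (nm v).Prime

/-- the bound for the norm of the typed families -/
def UA (B : ℝ) (a : ℕ) (A E : Finset (Pl K)) : ℝ :=
  B ^ (1 / (a : ℝ)) * ((∏ v ∈ A, (nm v : ℝ) ^ (-(((a + 1 : ℕ) : ℝ) / (a : ℝ)))) *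
    ∏ v ∈ E \ A, (nm v : ℝ) ^ (-1 : ℝ))

end wts

/-- a normal series with central factors, except at most one factor, whose order divides 4 -/
def CF (G : Type) [Group G] : Prop :=
  ∃ (k j : ℕ) (N : ℕ → Subgroup G), N 0 = ⊥ ∧ N k = ⊤ ∧ (∀ i, (N i).Normal) ∧
    ∀ i < k, N i ≤ N (i + 1) ∧ (i ≠ j → ∀ x ∈ N (i + 1), ∀ g : G, g * x * g⁻¹ * x⁻¹ ∈ N i) ∧
      (i = j → (N i).relIndex (N (i + 1)) ∣ 4)

end H51.TC
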