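import Pool.Agent.H51.TC.Dya

/-!
# TC-WTS: summability of the weights

`wts`: if `RBL D L H` then `E ↦ q^(#E) nr(E)^(1/(4a)) ∑_(A ∈ Aw E) #HB(A) ∏_A nm^(-(a+1)/a) ∏_(E ∖ A) nm^(-1)` is summable.
-/

set_option autoImplicit false

open scoped NumberField
open IsDedekindDomain
open scoped Classical

noncomputable section

namespace H51.TC

open H63.MA H38.BB H38.BG H38.AS H63.BU

variable {K : Type} [Field K] [NumberField K] {Ω : Type} [Field Ω] [Algebra K Ω]
  {p : ℕ} {ζ : K}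

/-- the homomorphisms with set `R` of ramified primes outside `S0` -/
def HR (D : RD0 K p ζ) (L : LDs D Ω) (H : Type) [Group H] (R : Finset (Pl K)) :
    Set (Gal(Ω/K) →* H) :=
  {β | H38.ML.FT β ∧ ∀ v, v ∈ R ↔ Rm L β v}

theorem hb_fin (D : RD0 K p ζ) (L : LDs D Ω) (H : Type) [Group H] (hRB : RBL D L H)
    (A : Finset (Pl K)) : (HB D L H A).Finite := by
  obtain ⟨C, hC⟩ := hRB 1 one_pos
  by_contra hinf
  obtain ⟨F, hF1, hF2⟩ := Set.Infinite.exists_subset_card_eq hinf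
    (⌊C * nr A ^ (1 + 1 : ℝ)⌋₊ + 1)
  have h2 := hC (nr A) (one_le_nr A) F (by
    intro φ hφ
    have h3 := hF1 hφ
    refine ⟨h3.1, fun T hT => nr_mono fun v hv => ?_⟩
    obtain ⟨hvS, τ, hτ, hne⟩ := hT v hv
    by_contra hvA
    exact hne (h3.2 v hvS hvA τ hτ))
  rw [hF2] at h2
  push_cast at h2
  have h3 := Nat.lt_floor_add_one (C * nr A ^ (1 + 1 : ℝ))
  linarith

theorem hr_sub (D : RD0 K p ζ) (L : LDs D Ω) (H : Type) [Group H] (R : Finset (Pl K)) :
    HR D L H R ⊆ HB D L H R := by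
  rintro β ⟨h1, h2⟩
  refine ⟨h1, fun v hvS hvR τ hτ => ?_⟩
  by_contra hne
  exact hvR ((h2 v).2 ⟨hvS, τ, hτ, hne⟩)

theorem hb_le (D : RD0 K p ζ) (L : LDs D Ω) (H : Type) [Group H] (hRB : RBL D L H)
    (A : Finset (Pl K)) :
    ((HB D L H A).ncard : ℝ) ≤ ∑ R ∈ A.powerset, ((HR D L H R).ncard : ℝ) := by
  have hf := hb_fin D L H hRB A
  have hR : ∀ R, (HR D L H R).Finite := fun R => (hb_fin D L H hRB R).subset (hr_sub D L H R)
  rw [Set.ncard_eq_toFinset_card _ hf]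
  have h1 : hf.toFinset ⊆ A.powerset.biUnion fun R => (hR R).toFinset := by
    intro β hβ
    rw [Set.Finite.mem_toFinset] at hβ
    obtain ⟨h2, h3⟩ := hβ
    rw [Finset.mem_biUnion]
    refine ⟨A.filter fun v => Rm L β v, Finset.mem_powerset.2 (Finset.filter_subset _ _), ?_⟩
    rw [Set.Finite.mem_toFinset]
    refine ⟨h2, fun v => ?_⟩
    rw [Finset.mem_filter]
    refine ⟨fun h => h.2, fun h => ⟨?_, h⟩⟩
    obtain ⟨hvS, τ, hτ, hne⟩ := h
    by_contra hvA
    exact hne (h3 v hvS hvA τ hτ)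
  have h2 := (Finset.card_le_card h1).trans Finset.card_biUnion_le
  have h3 : ∀ R, (hR R).toFinset.card = (HR D L H R).ncard := fun R =>
    (Set.ncard_eq_toFinset_card _ (hR R)).symm
  calc (hf.toFinset.card : ℝ) ≤ ((∑ R ∈ A.powerset, (hR R).toFinset.card : ℕ) : ℝ) := by
        exact_mod_cast h2
    _ = _ := by
        push_cast
        exact Finset.sum_congr rfl fun R _ => by rw [h3 R]

theorem hr_sum (D : RD0 K p ζ) (L : LDs D Ω) (H : Type) [Group H] (hRB : RBL D L H) (ε : ℝ)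
    (hε : 0 < ε) : ∃ C : ℝ, ∀ Y : ℝ, 1 ≤ Y → ∀ Rs : Finset (Finset (Pl K)),
      (∀ R ∈ Rs, nr R ≤ Y) → ∑ R ∈ Rs, ((HR D L H R).ncard : ℝ) ≤ C * Y ^ (1 + ε) := by
  obtain ⟨C, hC⟩ := hRB ε hε
  refine ⟨C, fun Y hY Rs hRs => ?_⟩
  have hR : ∀ R, (HR D L H R).Finite := fun R => (hb_fin D L H hRB R).subset (hr_sub D L H R)
  have h1 := hC Y hY (Rs.biUnion fun R => (hR R).toFinset) (by
    intro φ hφ
    rw [Finset.mem_biUnion] at hφ
    obtain ⟨R, hR1, hR2⟩ := hφ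
    rw [Set.Finite.mem_toFinset] at hR2
    refine ⟨hR2.1, fun T hT => (nr_mono fun v hv => ?_).trans (hRs R hR1)⟩
    exact (hR2.2 v).2 (hT v hv))
  refine le_trans (le_of_eq ?_) h1
  rw [Finset.card_biUnion]
  · push_cast
    refine Finset.sum_congr rfl fun R _ => ?_
    rw [Set.ncard_eq_toFinset_card _ (hR R)]
  · intro R _ R' _ hne
    refine Finset.disjoint_left.2 fun φ hφ hφ' => hne ?_
    rw [Set.Finite.mem_toFinset] at hφ hφ'
    ext v
    rw [hφ.2 v, hφ'.2 v]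

/-- sums over pairs `A ⊆ E` -/
theorem pairs (Es As Fs : Finset (Finset (Pl K))) (P : Finset (Pl K) → Finset (Finset (Pl K)))
    (g : Finset (Pl K) → Finset (Pl K) → ℝ) (hg : ∀ A F, 0 ≤ g A F)
    (h : ∀ E ∈ Es, ∀ A ∈ P E, A ⊆ E ∧ A ∈ As ∧ E \ A ∈ Fs) :
    ∑ E ∈ Es, ∑ A ∈ P E, g A (E \ A) ≤ ∑ A ∈ As, ∑ F ∈ Fs, g A F := by
  rw [Finset.sum_sigma' Es P fun E A => g A (E \ A), ← Finset.sum_product' As Fs g]
  have hinj : Set.InjOn (fun x : (_ : Finset (Pl K)) × Finset (Pl K) => (x.2, x.1 \ x.2))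
      (Es.sigma P : Set ((_ : Finset (Pl K)) × Finset (Pl K))) := by
    rintro ⟨E, A⟩ hx ⟨E', A'⟩ hx' he
    obtain ⟨h1, h2⟩ := Finset.mem_sigma.1 (Finset.mem_coe.1 hx)
    obtain ⟨h1', h2'⟩ := Finset.mem_sigma.1 (Finset.mem_coe.1 hx')
    obtain ⟨e1, e2⟩ := Prod.mk.inj he
    dsimp only at e1 e2 h1 h2 h1' h2'
    subst e1
    have e3 : E = E' := by
      rw [← Finset.sdiff_union_of_subset (h E h1 A h2).1, e2,
        Finset.sdiff_union_of_subset (h E' h1' A h2').1]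
    rw [e3]
  have e0 : ∑ x ∈ Es.sigma P, g x.2 (x.1 \ x.2) =
      ∑ y ∈ (Es.sigma P).image (fun x => (x.2, x.1 \ x.2)), g y.1 y.2 :=
    (Finset.sum_image (f := fun y : Finset (Pl K) × Finset (Pl K) => g y.1 y.2) hinj).symm
  rw [e0]
  refine Finset.sum_le_sum_of_subset_of_nonneg ?_ fun y _ _ => hg _ _
  intro y hy
  obtain ⟨⟨E, A⟩, hx, rfl⟩ := Finset.mem_image.1 hy
  obtain ⟨h1, h2⟩ := Finset.mem_sigma.1 hx
  exact Finset.mem_product.2 ⟨(h E h1 A h2).2.1, (h E h1 A h2).2.2⟩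

/-- sums of products over finite sets -/
theorem prod_sum (t : Pl K → ℝ) (ht0 : ∀ v, 0 ≤ t v) (hts : Summable t)
    (F : Finset (Finset (Pl K))) : ∑ E ∈ F, ∏ v ∈ E, t v ≤ Real.exp (∑' v, t v) := by
  have hsub : F ⊆ (F.biUnion id).powerset := fun E hE =>
    Finset.mem_powerset.2 (Finset.subset_biUnion_of_mem id hE)
  calc ∑ E ∈ F, ∏ v ∈ E, t v ≤ ∑ E ∈ (F.biUnion id).powerset, ∏ v ∈ E, t v :=
        Finset.sum_le_sum_of_subset_of_nonneg hsub fun E _ _ =>
          Finset.prod_nonneg fun v _ => ht0 v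
    _ = ∏ v ∈ F.biUnion id, (1 + t v) := (Finset.prod_one_add _).symm
    _ ≤ ∏ v ∈ F.biUnion id, Real.exp (t v) := by
        refine Finset.prod_le_prod (fun v _ => by linarith [ht0 v]) fun v _ => ?_
        rw [add_comm]
        exact Real.add_one_le_exp _
    _ = Real.exp (∑ v ∈ F.biUnion id, t v) := (Real.exp_sum _ _).symm
    _ ≤ Real.exp (∑' v, t v) :=
        Real.exp_le_exp.2 (hts.sum_le_tsum _ fun v _ => ht0 v)

theorem wts (D : RD0 K p ζ) (L : LDs D Ω) (H : Type) [Group H] (hRB : RBL D L H) (a : ℕ)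
    (ha : 0 < a) (q : ℝ) (hq : 0 ≤ q) :
    Summable fun E : Finset (Pl K) => q ^ E.card * nr E ^ (1 / (4 * (a : ℝ))) *
      ∑ A ∈ Aw E, ((HB D L H A).ncard : ℝ) *
        ((∏ v ∈ A, (nm v : ℝ) ^ (-(((a + 1 : ℕ) : ℝ) / (a : ℝ)))) *
          ∏ v ∈ E \ A, (nm v : ℝ) ^ (-1 : ℝ)) := by
  have ha1 : (1 : ℝ) ≤ a := by exact_mod_cast ha
  have ha0 : (0 : ℝ) < a := by linarith
  have hnm : ∀ v : Pl K, (0 : ℝ) < nm v := fun v => by
    have : (1 : ℝ) < nm v := by exact_mod_cast one_lt_nm v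
    linarith
  set η : ℝ := 1 / (4 * (a : ℝ)) with hη
  set x : Pl K → ℝ := fun v => q * (nm v : ℝ) ^ (η - ((a + 1 : ℕ) : ℝ) / (a : ℝ)) with hx
  set y : Pl K → ℝ := fun v => if (nm v).Prime then 0 else q * (nm v : ℝ) ^ (η - 1) with hy
  have hx0 : ∀ v, 0 ≤ x v := fun v => mul_nonneg hq (Real.rpow_nonneg (hnm v).le _)
  have hy0 : ∀ v, 0 ≤ y v := fun v => by
    rw [hy]
    dsimp only
    split_ifs
    · exact le_rfl
    · exact mul_nonneg hq (Real.rpow_nonneg (hnm v).le _)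
  have hxs : Summable x := by
    have h1 : Summable fun v : Pl K => (nm v : ℝ) ^ (-(1 + 3 / (4 * (a : ℝ)))) :=
      pz_summable K (by
        have : (0 : ℝ) < 3 / (4 * (a : ℝ)) := by positivity
        linarith)
    refine (h1.mul_left q).congr fun v => ?_
    rw [hx]
    dsimp only
    congr 2
    rw [hη]
    push_cast
    field_simp
    ring
  have hys : Summable y := by
    have h2 : Summable fun v : Pl K => Set.indicator {v : Pl K | ¬ (nm v).Prime}
        (fun v => (nm v : ℝ) ^ (-(1 - 1 / (4 * (a : ℝ))))) v :=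
      deg_summable K (by
        have : 1 / (4 * (a : ℝ)) ≤ 1 / 4 := by
          apply one_div_le_one_div_of_le <;> linarith
        linarith)
    refine (h2.mul_left q).congr fun v => ?_
    rw [hy]
    dsimp only
    by_cases hv : (nm v).Prime
    · rw [if_pos hv, Set.indicator_of_notMem (show v ∉ {v : Pl K | ¬ (nm v).Prime} from fun h => h hv), mul_zero]
    · rw [if_neg hv, Set.indicator_of_mem (show v ∈ {v : Pl K | ¬ (nm v).Prime} from hv)]
      congr 2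
      rw [hη]
      ring
  set X : Finset (Pl K) → ℝ := fun A => ∏ v ∈ A, x v with hX
  set Y : Finset (Pl K) → ℝ := fun F => ∏ v ∈ F, y v with hY
  have hX0 : ∀ A, 0 ≤ X A := fun A => Finset.prod_nonneg fun v _ => hx0 v
  have hY0 : ∀ A, 0 ≤ Y A := fun A => Finset.prod_nonneg fun v _ => hy0 v
  -- the terms
  have hterm : ∀ E : Finset (Pl K), q ^ E.card * nr E ^ η *
      ∑ A ∈ Aw E, ((HB D L H A).ncard : ℝ) *
        ((∏ v ∈ A, (nm v : ℝ) ^ (-(((a + 1 : ℕ) : ℝ) / (a : ℝ)))) *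
          ∏ v ∈ E \ A, (nm v : ℝ) ^ (-1 : ℝ)) =
      ∑ A ∈ Aw E, ((HB D L H A).ncard : ℝ) * X A * Y (E \ A) := by
    intro E
    rw [Finset.mul_sum]
    refine Finset.sum_congr rfl fun A hA => ?_
    obtain ⟨hAE, hpr⟩ := Finset.mem_filter.1 hA
    have hAE' := Finset.mem_powerset.1 hAE
    have e1 : q ^ E.card * nr E ^ η = (∏ v ∈ A, q * (nm v : ℝ) ^ η) *
        ∏ v ∈ E \ A, q * (nm v : ℝ) ^ η := by
      rw [mul_comm (∏ v ∈ A, _), Finset.prod_sdiff hAE', nr_rpow, ← Finset.prod_const,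
        ← Finset.prod_mul_distrib]
    have e2 : X A = (∏ v ∈ A, q * (nm v : ℝ) ^ η) *
        ∏ v ∈ A, (nm v : ℝ) ^ (-(((a + 1 : ℕ) : ℝ) / (a : ℝ))) := by
      rw [← Finset.prod_mul_distrib]
      refine Finset.prod_congr rfl fun v _ => ?_
      rw [mul_assoc, ← Real.rpow_add (hnm v)]
      rfl
    have e3 : Y (E \ A) = (∏ v ∈ E \ A, q * (nm v : ℝ) ^ η) *
        ∏ v ∈ E \ A, (nm v : ℝ) ^ (-1 : ℝ) := by
      rw [← Finset.prod_mul_distrib]
      refine Finset.prod_congr rfl fun v hv => ?_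
      rw [mul_assoc, ← Real.rpow_add (hnm v), hy]
      dsimp only
      rw [if_neg (hpr v hv)]
      rfl
    rw [e1, e2, e3]
    ring
  -- the sum over `R`
  obtain ⟨C₀, hC₀⟩ := dya (fun R => ((HR D L H R).ncard : ℝ)) (fun R => Nat.cast_nonneg _)
    (fun ε hε => hr_sum D L H hRB ε hε) q (3 / (4 * (a : ℝ))) hq (by positivity)
  have hXR : ∀ R, X R = q ^ R.card * nr R ^ (-1 - 3 / (4 * (a : ℝ))) := by
    intro R
    rw [nr_rpow, ← Finset.prod_const, ← Finset.prod_mul_distrib]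
    refine Finset.prod_congr rfl fun v _ => ?_
    rw [hx]
    dsimp only
    congr 2
    rw [hη]
    push_cast
    field_simp
    ring
  have hC₀' : ∀ Rs : Finset (Finset (Pl K)),
      ∑ R ∈ Rs, ((HR D L H R).ncard : ℝ) * X R ≤ C₀ := by
    intro Rs
    rw [Finset.sum_congr rfl fun R _ => by rw [hXR R]]
    exact hC₀ Rs
  have hC₀0 : 0 ≤ C₀ := by
    have := hC₀' ∅
    rwa [Finset.sum_empty] at this
  -- the sum over `A`
  have hSA : ∀ As : Finset (Finset (Pl K)),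
      ∑ A ∈ As, ((HB D L H A).ncard : ℝ) * X A ≤ C₀ * Real.exp (∑' v, x v) := by
    intro As
    set Bs := (As.biUnion id).powerset with hBs
    calc ∑ A ∈ As, ((HB D L H A).ncard : ℝ) * X A ≤
        ∑ A ∈ As, ∑ R ∈ A.powerset, ((HR D L H R).ncard : ℝ) * X R * X (A \ R) := by
          refine Finset.sum_le_sum fun A _ => ?_
          calc ((HB D L H A).ncard : ℝ) * X A ≤
              (∑ R ∈ A.powerset, ((HR D L H R).ncard : ℝ)) * X A :=
                mul_le_mul_of_nonneg_right (hb_le D L H hRB A) (hX0 A)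
            _ = _ := by
                rw [Finset.sum_mul]
                refine Finset.sum_congr rfl fun R hR => ?_
                have e : X A = X (A \ R) * X R :=
                  (Finset.prod_sdiff (Finset.mem_powerset.1 hR)).symm
                rw [e]
                ring
      _ ≤ ∑ R ∈ Bs, ∑ F ∈ Bs, ((HR D L H R).ncard : ℝ) * X R * X F := by
          refine pairs As Bs Bs (fun A => A.powerset)
            (fun R F => ((HR D L H R).ncard : ℝ) * X R * X F)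
            (fun R F => mul_nonneg (mul_nonneg (Nat.cast_nonneg _) (hX0 R)) (hX0 F)) ?_
          intro A hA R hR
          have h1 := Finset.mem_powerset.1 hR
          have h2 : A ⊆ As.biUnion id := Finset.subset_biUnion_of_mem id hA
          exact ⟨h1, Finset.mem_powerset.2 (h1.trans h2),
            Finset.mem_powerset.2 (Finset.sdiff_subset.trans h2)⟩
      _ = (∑ R ∈ Bs, ((HR D L H R).ncard : ℝ) * X R) * ∑ F ∈ Bs, X F := by
          rw [Finset.sum_mul_sum]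
      _ ≤ C₀ * Real.exp (∑' v, x v) :=
          mul_le_mul (hC₀' Bs) (prod_sum x hx0 hxs Bs)
            (Finset.sum_nonneg fun F _ => hX0 F) hC₀0
  have hnn : ∀ E : Finset (Pl K), 0 ≤ q ^ E.card * nr E ^ η *
      ∑ A ∈ Aw E, ((HB D L H A).ncard : ℝ) *
        ((∏ v ∈ A, (nm v : ℝ) ^ (-(((a + 1 : ℕ) : ℝ) / (a : ℝ)))) *
          ∏ v ∈ E \ A, (nm v : ℝ) ^ (-1 : ℝ)) := by
    intro E
    rw [hterm E]
    exact Finset.sum_nonneg fun A _ =>
      mul_nonneg (mul_nonneg (Nat.cast_nonneg _) (hX0 A)) (hY0 _)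
  refine summable_of_sum_le hnn (c := C₀ * Real.exp (∑' v, x v) * Real.exp (∑' v, y v))
    fun Es => ?_
  rw [Finset.sum_congr rfl fun E _ => hterm E]
  set Bs := (Es.biUnion id).powerset with hBs
  calc ∑ E ∈ Es, ∑ A ∈ Aw E, ((HB D L H A).ncard : ℝ) * X A * Y (E \ A) ≤
      ∑ A ∈ Bs, ∑ F ∈ Bs, ((HB D L H A).ncard : ℝ) * X A * Y F := by
        refine pairs Es Bs Bs Aw (fun A F => ((HB D L H A).ncard : ℝ) * X A * Y F)
          (fun A F => mul_nonneg (mul_nonneg (Nat.cast_nonneg _) (hX0 A)) (hY0 F)) ?_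
        intro E hE A hA
        have h1 := Finset.mem_powerset.1 (Finset.mem_filter.1 hA).1
        have h2 : E ⊆ Es.biUnion id := Finset.subset_biUnion_of_mem id hE
        exact ⟨h1, Finset.mem_powerset.2 (h1.trans h2),
          Finset.mem_powerset.2 (Finset.sdiff_subset.trans h2)⟩
    _ = (∑ A ∈ Bs, ((HB D L H A).ncard : ℝ) * X A) * ∑ F ∈ Bs, Y F := by
        rw [Finset.sum_mul_sum]
    _ ≤ C₀ * Real.exp (∑' v, x v) * Real.exp (∑' v, y v) :=
        mul_le_mul (hSA Bs) (prod_sum y hy0 hys Bs)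
          (Finset.sum_nonneg fun F _ => hY0 F) (by positivity)

end H51.TC
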