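import Pool.Agent.H51.TC.Cnt
import Pool.Agent.H51.TC.Wts

/-!
# TC-GUE: domination (as `gue`, `edm` in H38/AS, with `RBL D L (G ⧸ W)` instead of nilpotency)
-/

set_option autoImplicit false

open scoped NumberField
open IsDedekindDomain
open scoped Classical

noncomputable section

namespace H51.TC

open H63.MA H38.BB H38.BG H38.AS H63.BU

variable {K : Type} [Field K] [NumberField K] {Ω : Type} [Field Ω] [Algebra K Ω] [IsAlgClosure K Ω]
  {p : ℕ} {ζ : K}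

theorem ua_le {K : Type} [Field K] [NumberField K] (B : ℝ) (hB : 1 ≤ B) (a : ℕ)
    (A E : Finset (Pl K)) : 0 ≤ UA B a A E ∧ UA B a A E ≤ B ^ (1 / (a : ℝ)) := by
  have hB0 : 0 ≤ B ^ (1 / (a : ℝ)) := Real.rpow_nonneg (by linarith) _
  have h0 : ∀ (s : ℝ) (v : Pl K), 0 ≤ (nm v : ℝ) ^ s := fun s v =>
    Real.rpow_nonneg (Nat.cast_nonneg _) _
  have h1 : ∀ (s : ℝ) (v : Pl K), s ≤ 0 → (nm v : ℝ) ^ s ≤ 1 := fun s v hs =>
    Real.rpow_le_one_of_one_le_of_nonpos (by exact_mod_cast (one_lt_nm v).le) hs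
  have h2 : (∏ v ∈ A, (nm v : ℝ) ^ (-(((a + 1 : ℕ) : ℝ) / (a : ℝ)))) ≤ 1 :=
    Finset.prod_le_one (fun v _ => h0 _ v) fun v _ => h1 _ v (by
      have : (0 : ℝ) ≤ ((a + 1 : ℕ) : ℝ) / (a : ℝ) := by positivity
      linarith)
  have h3 : (∏ v ∈ E \ A, (nm v : ℝ) ^ (-1 : ℝ)) ≤ 1 :=
    Finset.prod_le_one (fun v _ => h0 _ v) fun v _ => h1 _ v (by norm_num)
  have h4 : 0 ≤ ∏ v ∈ A, (nm v : ℝ) ^ (-(((a + 1 : ℕ) : ℝ) / (a : ℝ))) :=
    Finset.prod_nonneg fun v _ => h0 _ v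
  have h5 : 0 ≤ ∏ v ∈ E \ A, (nm v : ℝ) ^ (-1 : ℝ) := Finset.prod_nonneg fun v _ => h0 _ v
  unfold UA
  exact ⟨mul_nonneg hB0 (mul_nonneg h4 h5),
    mul_le_of_le_one_right hB0 (mul_le_one₀ h2 h5 h3)⟩

theorem gue (hp : p.Prime) (hp2 : MOne p K) (hζ : IsPrimitiveRoot ζ p) (D : RD K p ζ)
    (L : LDs D.toRD0 Ω) {m u w N : ℕ} {G : Type} [Group G] [Finite G]
    (Dg : GT p m u w N G) (hN : 1 ≤ N) (z : K)
    (hz : IsPrimitiveRoot z (Nat.card G))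
    (hS : ∀ v : Pl K, ((Nat.card G : ℕ) : 𝓞 K) ∈ v.asIdeal → v ∈ D.S0)
    (hRB : RBL D.toRD0 L (G ⧸ WS Dg)) (a : ℕ) (ha : 0 < a)
    (ix : Subgroup G → ℕ) (h1 : ∀ H, H ≠ ⊥ → a ≤ ix H)
    (h2 : ∀ g : G, g ≠ 1 → ix (Subgroup.zpowers g) ≤ a → ∃ i, IsConj g (Dg.g i)) :
    ∃ wt : Finset (Pl K) → ℝ, Summable wt ∧ (∀ E, 0 ≤ wt E) ∧
      ∀ (B : ℝ) (E : Finset (Pl K)), 3 ≤ B → ∀ Rs : Finset (Gal(Ω/K) →* G),
      (∀ φ ∈ Rs, H38.ML.FT φ ∧ Function.Surjective φ ∧ (∀ T : Finset (Pl K),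
        (∀ v ∈ T, v ∉ D.S0) → ∏ v ∈ T, (nm v : ℝ) ^ ix ((inr L v).map φ) ≤ B) ∧
        ∀ v, v ∈ E ↔ Rm L φ v ∧ ∀ i, ¬ Ty Dg L φ i v) →
      (Rs.card : ℝ) ≤ wt E * (B ^ (1 / (a : ℝ)) * Real.log B ^ (N - 1)) := by
  have : NeZero p := ⟨hp.ne_zero⟩
  have haR : (0 : ℝ) < (a : ℝ) := by exact_mod_cast ha
  have ha1 : (1 : ℝ) ≤ (a : ℝ) := by exact_mod_cast ha
  obtain ⟨U, hU1, hU2⟩ := unit_reps hp D.S0
  obtain ⟨C₁, hcnt⟩ := cnt hp hζ D.toRD0 L Dg z hz hS a ha ix h1 h2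
  set η : ℝ := 1 / (4 * (a : ℝ)) with hη
  have hη0 : 0 < η := by positivity
  obtain ⟨C₂, hC₂, hub⟩ := ub hp hp2 hζ D Dg.cr hN η hη0
  set q : ℝ := ((2 : ℝ) ^ N * (p : ℝ) ^ m) * (Nat.card G : ℝ) with hq
  have hq0 : 0 ≤ q := by positivity
  set hb : Finset (Pl K) → ℝ := fun A => ((HB D.toRD0 L (G ⧸ WS Dg) A).ncard : ℝ) with hhb
  set W : Finset (Pl K) → Finset (Pl K) → ℝ := fun A E =>
    (∏ v ∈ A, (nm v : ℝ) ^ (-(((a + 1 : ℕ) : ℝ) / (a : ℝ)))) *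
      ∏ v ∈ E \ A, (nm v : ℝ) ^ (-1 : ℝ) with hW
  have hW0 : ∀ A E, 0 ≤ W A E := fun A E =>
    mul_nonneg (Finset.prod_nonneg fun v _ => Real.rpow_nonneg (Nat.cast_nonneg _) _)
      (Finset.prod_nonneg fun v _ => Real.rpow_nonneg (Nat.cast_nonneg _) _)
  have hb0 : ∀ A, 0 ≤ hb A := fun A => Nat.cast_nonneg _
  have hsum := wts D.toRD0 L (G ⧸ WS Dg) hRB a ha q hq0
  have hbase0 : ∀ E : Finset (Pl K), 0 ≤ q ^ E.card * nr E ^ η * ∑ A ∈ Aw E, hb A * W A E := by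
    intro E
    have hnr := one_le_nr E
    have : 0 ≤ ∑ A ∈ Aw E, hb A * W A E :=
      Finset.sum_nonneg fun A _ => mul_nonneg (hb0 A) (hW0 A E)
    positivity
  refine ⟨fun E => ((C₁ : ℝ) * (U.card : ℝ) ^ m * C₂ * 2 ^ (N - 1)) *
    (q ^ E.card * nr E ^ η * ∑ A ∈ Aw E, hb A * W A E),
    hsum.mul_left _, fun E => mul_nonneg (by positivity) (hbase0 E), ?_⟩
  intro B E hB Rs hRs
  have hB1 : 1 ≤ B := by linarith
  have hB0 : 0 < B := by linarith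
  have hlog1 : 1 ≤ Real.log B := by
    rw [Real.le_log_iff_exp_le hB0]
    exact Real.exp_one_lt_three.le.trans hB
  set X : ℝ := B ^ (1 / (a : ℝ)) with hX
  have hX1 : 1 ≤ X := Real.one_le_rpow hB1 (by positivity)
  have hX0 : 0 < X := by linarith
  have hnr := one_le_nr E
  -- the data
  have hex : ∀ φ : Gal(Ω/K) →* G, ∃ (A : Finset (Pl K)) (g : Fin N → Finset (Pl K))
      (β : Gal(Ω/K) →* G ⧸ WS Dg) (b : Fin m → Kˣ), φ ∈ Rs →
      A ∈ Aw E ∧ (∀ v, v ∈ A ↔ Rm L φ v ∧ ∀ i, ¬ Ti Dg L φ i v) ∧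
      g ∈ Fintype.piFinset (fun _ : Fin N => E.powerset) ∧
      β ∈ HB D.toRD0 L (G ⧸ WS Dg) A ∧
      b ∈ Bb D.toRD0 U E m ∧ BS2 D.toRD0 b E ∧ 1 ≤ UA B a A E ∧
      ∀ f : Fin N → Finset (Pl K), (∀ i v, v ∈ f i ↔ Ty Dg L φ i v) →
          (∀ σ, mkW Dg (φ σ) = β σ * vqW Dg (eta D.toRD0 Dg (fun i => f i ∪ g i) σ)) ∧
          SpR Dg.cr b f ∧
          wtR Dg.cr f (fun v k => D.LL v (akR D.toRD0 Dg.cr b f k)) =
            ∏ i, (Nat.card {h : G // IsConj h (Dg.g i)} : ℝ) ^ (f i).card := by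
    intro φ
    by_cases hφ : φ ∈ Rs
    · obtain ⟨hft, hs, hT, hE⟩ := hRs φ hφ
      obtain ⟨f, -, hf, -⟩ := umain_sets L Dg φ hft
      obtain ⟨b, hb1, hbs, -, hsp, hw⟩ := ukum hp hζ D.toRD0 L Dg U hU1 hU2 φ hft hs f E hf hE
      obtain ⟨h, A, hh, hA⟩ := ti_sets L Dg φ hft
      obtain ⟨β, hβ, hβ2⟩ := bas hp hζ D.toRD0 L Dg φ hft h A hh hA
      obtain ⟨-, -, -, r1, -, r2⟩ := cnr hp hζ D.toRD0 L Dg hS a ha ix h1 h2 φ hft B hT f A E
        hf hE hA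
      refine ⟨A, fun i => h i \ f i, β, b, fun _ => ⟨r2, hA, ?_, hβ, hb1, hbs, r1,
        fun f' hf' => ?_⟩⟩
      · rw [Fintype.mem_piFinset]
        intro i
        rw [Finset.mem_powerset]
        intro v hv
        obtain ⟨r3, r4⟩ := Finset.mem_sdiff.1 hv
        have r5 := (hh i v).1 r3
        refine (hE v).2 ⟨(ti_rm L Dg φ i v r5).1, fun j hj => r4 ?_⟩
        have r6 : j = i := ti_uni L Dg φ j i v ((ti_ty L Dg φ j v).1 hj).1 r5
        rw [r6] at hj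
        exact (hf i v).2 hj
      · have hff : f' = f := by
          funext i
          ext v
          rw [hf' i v, hf i v]
        rw [hff]
        have hun : (fun i => f i ∪ (h i \ f i)) = h := by
          funext i
          refine Finset.union_sdiff_of_subset fun v hv => (hh i v).2 ?_
          exact ((ti_ty L Dg φ i v).1 ((hf i v).1 hv)).1
        rw [hun]
        exact ⟨hβ2, hsp, hw⟩
    · exact ⟨∅, fun _ => ∅, 1, fun _ => 1, fun h => absurd h hφ⟩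
  choose eA eg eβ eb he using hex
  have hHf : ∀ A, (HB D.toRD0 L (G ⧸ WS Dg) A).Finite := fun A => hb_fin D.toRD0 L _ hRB A
  -- the fibres
  have hfib : ∀ (A : Finset (Pl K)) (g : Fin N → Finset (Pl K))
      (β : Gal(Ω/K) →* G ⧸ WS Dg) (b : Fin m → Kˣ),
      ((Rs.filter fun φ => eA φ = A ∧ eg φ = g ∧ eβ φ = β ∧ eb φ = b).card : ℝ) ≤
        (C₁ : ℝ) * (Nat.card G : ℝ) ^ E.card *
          (C₂ * nr E ^ η * UA B a A E * (2 * Real.log B) ^ (N - 1)) := by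
    intro A g β b
    have hUA := ua_le B hB1 a A E
    have hrhs : 0 ≤ (C₁ : ℝ) * (Nat.card G : ℝ) ^ E.card *
          (C₂ * nr E ^ η * UA B a A E * (2 * Real.log B) ^ (N - 1)) := by
      have : 0 ≤ UA B a A E := hUA.1
      positivity
    rcases (Rs.filter fun φ => eA φ = A ∧ eg φ = g ∧ eβ φ = β ∧ eb φ = b).eq_empty_or_nonempty
      with h0 | ⟨φ₀, hφ₀⟩
    · rw [h0, Finset.card_empty, Nat.cast_zero]
      exact hrhs
    rw [Finset.mem_filter] at hφ₀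
    obtain ⟨hφ₀, hA₀, hg₀, hβ₀, hb₀⟩ := hφ₀
    obtain ⟨-, -, -, -, -, hbs, hUA1, -⟩ := he φ₀ hφ₀
    rw [hb₀] at hbs
    rw [hA₀] at hUA1
    have h3 := hcnt B A E g β b (Rs.filter fun φ => eA φ = A ∧ eg φ = g ∧ eβ φ = β ∧ eb φ = b)
      (by
        intro φ hφ
        rw [Finset.mem_filter] at hφ
        obtain ⟨hφ, hA, hg, hβ, hb⟩ := hφ
        obtain ⟨-, b2, -, -, -, -, -, b8⟩ := he φ hφ
        rw [hA] at b2
        rw [hg, hβ, hb] at b8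
        exact ⟨(hRs φ hφ).1, (hRs φ hφ).2.2.1, (hRs φ hφ).2.2.2, b2, b8⟩)
    have h4 := hub b E hbs (UA B a A E) hUA1
    have hlogU : Real.log (UA B a A E) ≤ Real.log B := by
      have h5 : UA B a A E ≤ B := by
        refine hUA.2.trans ?_
        calc B ^ (1 / (a : ℝ)) ≤ B ^ (1 : ℝ) := by
              refine Real.rpow_le_rpow_of_exponent_le hB1 ?_
              rw [div_le_one haR]
              exact ha1
          _ = B := Real.rpow_one B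
      exact Real.log_le_log (by linarith) h5
    have hlogU0 : 0 ≤ Real.log (UA B a A E) := Real.log_nonneg hUA1
    have h6 : (1 + Real.log (UA B a A E)) ^ (N - 1) ≤ (2 * Real.log B) ^ (N - 1) :=
      pow_le_pow_left₀ (by linarith) (by linarith) _
    have h7 : SW D.toRD0 Dg.cr b E (fun _ => 1) (UA B a A E) ≤
        C₂ * nr E ^ η * UA B a A E * (2 * Real.log B) ^ (N - 1) := by
      refine h4.trans ?_
      refine mul_le_mul_of_nonneg_left h6 ?_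
      have : 0 ≤ UA B a A E := hUA.1
      positivity
    refine h3.trans ?_
    exact mul_le_mul_of_nonneg_left h7 (by positivity)
  -- given `A`
  have hcA : ∀ A ∈ Aw E, ((Rs.filter fun φ => eA φ = A).card : ℝ) ≤
      (((2 : ℝ) ^ E.card) ^ N * hb A * ((U.card : ℝ) * (p : ℝ) ^ E.card) ^ m) *
        ((C₁ : ℝ) * (Nat.card G : ℝ) ^ E.card *
          (C₂ * nr E ^ η * UA B a A E * (2 * Real.log B) ^ (N - 1))) := by
    intro A _
    set T := (Fintype.piFinset (fun _ : Fin N => E.powerset)) ×ˢ (hHf A).toFinset ×ˢ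
      Bb D.toRD0 U E m with hT
    have hmap : ∀ φ ∈ Rs.filter (fun φ => eA φ = A), (eg φ, eβ φ, eb φ) ∈ T := by
      intro φ hφ
      obtain ⟨hφ1, hφ2⟩ := Finset.mem_filter.1 hφ
      obtain ⟨-, -, c3, c4, c5, -⟩ := he φ hφ1
      rw [hφ2] at c4
      rw [hT, Finset.mem_product, Finset.mem_product, Set.Finite.mem_toFinset]
      exact ⟨c3, c4, c5⟩
    have hTc : (T.card : ℝ) ≤
        ((2 : ℝ) ^ E.card) ^ N * hb A * ((U.card : ℝ) * (p : ℝ) ^ E.card) ^ m := by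
      rw [hT, Finset.card_product, Finset.card_product, Fintype.card_piFinset_const,
        Finset.card_powerset, Nat.cast_mul, Nat.cast_mul]
      have e1 : (((hHf A).toFinset.card : ℕ) : ℝ) = hb A := by
        rw [hhb]
        dsimp only
        rw [Set.ncard_eq_toFinset_card _ (hHf A)]
      have e2 := ubb_card D.toRD0 U E m
      have e3 : ((Bb D.toRD0 U E m).card : ℝ) ≤ ((U.card : ℝ) * (p : ℝ) ^ E.card) ^ m := by
        exact_mod_cast e2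
      rw [e1]
      push_cast
      rw [← mul_assoc]
      exact mul_le_mul_of_nonneg_left e3 (mul_nonneg (by positivity) (hb0 A))
    have hrhs : 0 ≤ (C₁ : ℝ) * (Nat.card G : ℝ) ^ E.card *
          (C₂ * nr E ^ η * UA B a A E * (2 * Real.log B) ^ (N - 1)) := by
      have : 0 ≤ UA B a A E := (ua_le B hB1 a A E).1
      positivity
    rw [Finset.card_eq_sum_card_fiberwise (fun φ hφ => Finset.mem_coe.2 (hmap φ (Finset.mem_coe.1 hφ)))]
    push_cast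
    calc ∑ t ∈ T, (((Rs.filter fun φ => eA φ = A).filter
          fun φ => (eg φ, eβ φ, eb φ) = t).card : ℝ) ≤
        ∑ t ∈ T, (C₁ : ℝ) * (Nat.card G : ℝ) ^ E.card *
          (C₂ * nr E ^ η * UA B a A E * (2 * Real.log B) ^ (N - 1)) := by
          refine Finset.sum_le_sum fun t _ => ?_
          refine le_trans ?_ (hfib A t.1 t.2.1 t.2.2)
          rw [Nat.cast_le]
          refine Finset.card_le_card fun φ hφ => ?_
          obtain ⟨hφ1, hφ2⟩ := Finset.mem_filter.1 hφ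
          obtain ⟨hφ3, hφ4⟩ := Finset.mem_filter.1 hφ1
          refine Finset.mem_filter.2 ⟨hφ3, hφ4, ?_, ?_, ?_⟩
          · rw [← hφ2]
          · rw [← hφ2]
          · rw [← hφ2]
      _ = (T.card : ℝ) * ((C₁ : ℝ) * (Nat.card G : ℝ) ^ E.card *
          (C₂ * nr E ^ η * UA B a A E * (2 * Real.log B) ^ (N - 1))) := by
          rw [Finset.sum_const, nsmul_eq_mul]
      _ ≤ _ := mul_le_mul_of_nonneg_right hTc hrhs
  have hmapA : ∀ φ ∈ Rs, eA φ ∈ Aw E := fun φ hφ => (he φ hφ).1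
  rw [Finset.card_eq_sum_card_fiberwise (fun φ hφ => Finset.mem_coe.2 (hmapA φ (Finset.mem_coe.1 hφ)))]
  push_cast
  refine (Finset.sum_le_sum hcA).trans (le_of_eq ?_)
  have e1 : q ^ E.card = ((2 : ℝ) ^ E.card) ^ N * ((p : ℝ) ^ E.card) ^ m *
      (Nat.card G : ℝ) ^ E.card := by
    rw [hq, mul_pow, mul_pow, ← pow_mul, ← pow_mul, ← pow_mul, ← pow_mul, mul_comm N,
      mul_comm m]
  have e2 : ∀ A, UA B a A E = X * W A E := fun A => rfl
  rw [Finset.mul_sum, Finset.mul_sum, Finset.sum_mul]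
  refine Finset.sum_congr rfl fun A _ => ?_
  rw [e1, e2, mul_pow, mul_pow]
  ring

end H51.TC
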