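import Pool.Agent.H51.TC.ESp
import Pool.Agent.H51.TC.Gue
import Pool.Agent.H38.AS.EDm
import Pool.Agent.H38.AS.QNk

/-!
# TC-FIN: the asymptotic formula (assembly), as H38/AS/Fin.lean, from `RB K QBar G` and `RB K QBar (G ⧸ W)` instead of nilpotency

* `fin_main`: the second centre case with a central element of least index.
-/

set_option autoImplicit false

open scoped NumberField
open IsDedekindDomain Filter Topology H38.ML
open scoped Classical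

noncomputable section

namespace H51.TC

open H63.MA H38.BB H38.BG H38.AS H63.BU

section rb

variable {K : Type} [Field K] [NumberField K] {Ω : Type} [Field Ω] [Algebra K Ω]
  {p m u w N : ℕ} {ζ : K}

/-- local data come from primes above all primes of `K` -/
theorem exists_LQ [IsAlgClosure K Ω] (D : RD0 K p ζ) (L : LDs D Ω) : ∃ Q : DP K Ω, LQ L Q := by
  obtain ⟨Q₀⟩ := exists_DP K Ω
  refine ⟨⟨fun v => if h : v ∉ D.S0 then (L.ld v h).P else Q₀.P v, fun v => ?_, fun v => ?_⟩,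
    fun v h => ?_⟩
  · by_cases h : v ∉ D.S0
    · rw [dif_pos h]
      exact (L.ld v h).prime
    · rw [dif_neg h]
      exact Q₀.prime v
  · by_cases h : v ∉ D.S0
    · rw [dif_pos h]
      exact (L.ld v h).under
    · rw [dif_neg h]
      exact Q₀.under v
  · show (L.ld v h).P = if h : v ∉ D.S0 then (L.ld v h).P else Q₀.P v
    rw [dif_pos h]

theorem rbl_of [IsAlgClosure K Ω] (D : RD0 K p ζ) (L : LDs D Ω) (H : Type) [Group H]
    (hH : RB K Ω H) : RBL D L H := by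
  intro ε hε
  obtain ⟨Q, hQ⟩ := exists_LQ D L
  obtain ⟨C, hC⟩ := hH Q ε hε
  have hS1 := one_le_nr (D.S0)
  refine ⟨C * nr D.S0 ^ (1 + ε), fun Y hY Rs hRs => ?_⟩
  have h1 := hC (nr D.S0 * Y) (by nlinarith) Rs (by
    intro φ hφ
    obtain ⟨h2, h3⟩ := hRs φ hφ
    refine ⟨h2, fun T hT => ?_⟩
    have h4 : nr (T \ D.S0) ≤ Y := by
      refine h3 _ fun v hv => ?_
      obtain ⟨h5, h6⟩ := Finset.mem_sdiff.1 hv
      obtain ⟨τ, hτ, hne⟩ := hT v h5
      refine ⟨h6, τ, ?_, hne⟩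
      unfold inr
      rw [dif_pos h6, hQ v h6]
      exact hτ
    have h5 : nr (T ∩ D.S0) ≤ nr D.S0 := nr_mono Finset.inter_subset_right
    calc ∏ v ∈ T, (nm v : ℝ) = nr (T ∩ D.S0) * nr (T \ D.S0) := by
          unfold nr
          rw [← Finset.prod_inter_mul_prod_sdiff]
      _ ≤ nr D.S0 * Y := mul_le_mul h5 h4 (by linarith [one_le_nr (T \ D.S0)])
          (by linarith))
  rwa [Real.mul_rpow (by linarith) (by linarith), ← mul_assoc] at h1

theorem isb_fin {G : Type} [Group G] (D : RD0 K p ζ) (L : LDs D Ω) (Dg : GT p m u w N G)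
    (h : RBL D L (G ⧸ WS Dg)) : {β : Gal(Ω/K) →* G ⧸ WS Dg | IsB D L Dg β}.Finite :=
  (hb_fin D L _ h ∅).subset fun β hβ => ⟨hβ.1, fun v hv _ τ hτ => hβ.2 v hv τ hτ⟩

end rb

section main

variable {n : ℕ} (G : Subgroup (Equiv.Perm (Fin n))) (K : IntermediateField ℚ QBar)
  [NumberField K]

theorem edm (hn : 2 ≤ n) (hG : MulAction.IsPretransitive G (Fin n))
    {p : ℕ} (hp : p.Prime)
    (hp2 : MOne p K) {ζ : K} (hζ : IsPrimitiveRoot ζ p) {m u w N : ℕ}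
    (Dg : GT p m u w N G) (hN : 1 ≤ N)
    (hI : ∀ h : G, (h ≠ 1 ∧ ind (h : Equiv.Perm (Fin n)) = indG G) ↔ ∃ i, IsConj h (Dg.g i))
    (z : K) (hz : IsPrimitiveRoot z (Nat.card G)) (D : RD K p ζ)
    (hS : ∀ v : Pl K, ((Nat.card G : ℕ) : 𝓞 K) ∈ v.asIdeal → v ∈ D.S0)
    (L : LDs D.toRD0 QBar) (hRB : RBL D.toRD0 L (G ⧸ WS Dg)) (i₀ : Fin n) :
    ∃ wt : Finset (Pl K) → ℝ, Summable wt ∧ (∀ E, 0 ≤ wt E) ∧
      ∀ (B : ℝ) (E : Finset (Pl K)), 3 ≤ B → (NE G K L Dg i₀ E B).Finite →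
        ((NE G K L Dg i₀ E B).ncard : ℝ) ≤
          wt E * (B ^ (1 / (indG G : ℝ)) * Real.log B ^ (N - 1)) := by
  obtain ⟨ha, -, hmin, -, hJ⟩ := pidx_pos hn G hG
  obtain ⟨wt, h1, h2, h3⟩ := gue hp hp2 hζ D L Dg hN z hz hS hRB (indG G) ha
    (fun H => n - orbs (H.map G.subtype))
    (fun H hH => by
      have := hJ H hH
      omega)
    (fun g hg h => by
      refine (hI g).1 ⟨hg, le_antisymm ?_ (hmin g hg)⟩
      have h1 : (Subgroup.zpowers g).map G.subtype =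
          Subgroup.zpowers (g : Equiv.Perm (Fin n)) := by
        rw [MonoidHom.map_zpowers]
        rfl
      rw [h1] at h
      exact h)
  refine ⟨wt, h1, h2, fun B E hB hfin => ?_⟩
  have h4 := h3 B E hB hfin.toFinset (by
    intro φ hφ
    rw [Set.Finite.mem_toFinset] at hφ
    obtain ⟨h5, h6, h7, h8⟩ := hφ
    exact ⟨h5, h6, fun T hT => (dsm_lo hn G hG K D.toRD0 L i₀ φ h6 h5 T hT).trans h7, h8⟩)
  rw [Set.ncard_eq_toFinset_card _ hfin]
  exact h4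

theorem fin_lim (hn : 2 ≤ n) (hG : MulAction.IsPretransitive G (Fin n))
    {p : ℕ} (hp : p.Prime) (hp2 : MOne p K) {ζ : K}
    (hζ : IsPrimitiveRoot ζ p) {m u w N : ℕ}
    (Dg : GT p m u w N G) (hRG : RB K QBar G) (hRB : RB K QBar (G ⧸ WS Dg)) (hN : 1 ≤ N)
    (hI : ∀ h : G, (h ≠ 1 ∧ ind (h : Equiv.Perm (Fin n)) = indG G) ↔ ∃ i, IsConj h (Dg.g i))
    (z : K) (hz : IsPrimitiveRoot z (Nat.card G)) (i₀ : Fin n)
    (hesp : EspP G K ζ Dg i₀) :
    (∀ B, (CfinS G K i₀ B).Finite) ∧ ∃ c : ℝ, Tendsto (fun B : ℝ =>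
      ((CfinS G K i₀ B).ncard : ℝ) / (B ^ (1 / (indG G : ℝ)) * Real.log B ^ (N - 1)))
        atTop (𝓝 c) := by
  obtain ⟨ha, -, hmin, -, hJ⟩ := pidx_pos hn G hG
  have hfac : {v : Pl K | ((n.factorial : ℕ) : 𝓞 K) ∈ v.asIdeal}.Finite :=
    finite_above (K := K) (Nat.factorial_ne_zero n)
  obtain ⟨D, hD0⟩ := H38.BB.exists_RD_of K hp hp2 hζ hfac.toFinset
  have hD : ∀ v : Pl K, ((n.factorial : ℕ) : 𝓞 K) ∈ v.asIdeal → v ∈ D.S0 := fun v hv =>
    hD0 v (by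
      rw [Set.Finite.mem_toFinset]
      exact hv)
  have hS : ∀ v : Pl K, ((Nat.card G : ℕ) : 𝓞 K) ∈ v.asIdeal → v ∈ D.S0 := fun v hv => by
    apply hD v
    obtain ⟨k, hk⟩ := esp_dvd G
    rw [hk]
    push_cast
    exact Ideal.mul_mem_right _ _ hv
  obtain ⟨Q⟩ := exists_DP K QBar
  obtain ⟨L, hLQ⟩ := lds_of hp hζ D.toRD0 Q
  -- the sets are finite
  have hfin : ∀ B, (CfinS G K i₀ B).Finite := by
    obtain ⟨C, hC⟩ := rbl_of D.toRD0 L G hRG 1 one_pos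
    have h1 : ∀ B, 1 ≤ B → (CfinS G K i₀ B).Finite := by
      intro B hB
      by_contra hinf
      obtain ⟨F, hF1, hF2⟩ := Set.Infinite.exists_subset_card_eq hinf
        (⌊C * B ^ (1 + 1 : ℝ)⌋₊ + 1)
      have h2 := hC B hB F (by
        intro φ hφ
        obtain ⟨h3, h4, h5⟩ := hF1 hφ
        refine ⟨h3, fun T hT => ?_⟩
        refine le_trans ?_ ((dsm_lo hn G hG K D.toRD0 L i₀ φ h4 h3 T fun v hv =>
          (hT v hv).1).trans h5)
        unfold nr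
        refine Finset.prod_le_prod (fun v _ => Nat.cast_nonneg _) fun v hv => ?_
        have h6 : (1 : ℝ) ≤ nm v := by exact_mod_cast (one_lt_nm v).le
        refine le_self_pow₀ h6 ?_
        have h7 : (inr L v).map φ ≠ ⊥ := by
          intro h
          obtain ⟨-, τ, hτ, hne⟩ := hT v hv
          have h8 : φ τ ∈ (inr L v).map φ := Subgroup.mem_map_of_mem φ hτ
          rw [h] at h8
          exact hne (Subgroup.mem_bot.1 h8)
        have h9 := hJ _ h7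
        omega)
      rw [hF2] at h2
      push_cast at h2
      have h3 := Nat.lt_floor_add_one (C * B ^ (1 + 1 : ℝ))
      linarith
    intro B
    refine (h1 (max B 1) (le_max_right _ _)).subset fun φ hφ =>
      ⟨hφ.1, hφ.2.1, hφ.2.2.trans (le_max_left _ _)⟩
  refine ⟨hfin, ?_⟩
  obtain ⟨wt, hw1, hw2, hw3⟩ := edm G K hn hG hp hp2 hζ Dg hN hI z hz D hS L
    (rbl_of D.toRD0 L _ hRB) i₀
  have hE := hesp D hD L Q hLQ
  choose hEf c hEc using hE
  -- the sum over `E`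
  have hsum : ∀ B : ℝ, ((CfinS G K i₀ B).ncard : ℝ) =
      ∑' E : Finset (Pl K), ((NE G K L Dg i₀ E B).ncard : ℝ) := by
    intro B
    have hex : ∀ φ : Gal(QBar/K) →* G, ∃ E : Finset (Pl K), FT φ →
        ∀ v, v ∈ E ↔ Ne Dg L φ v := by
      intro φ
      by_cases h : FT φ
      · obtain ⟨-, E, -, hE⟩ := H63.BU.umain_sets L Dg φ h
        exact ⟨E, fun _ => hE⟩
      · exact ⟨∅, fun h' => absurd h' h⟩
    choose Ef hEf2 using hex
    have hNE : ∀ E, NE G K L Dg i₀ E B = {φ ∈ CfinS G K i₀ B | Ef φ = E} := by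
      intro E
      ext φ
      constructor
      · rintro ⟨h1, h2, h3, h4⟩
        refine ⟨⟨h1, h2, h3⟩, ?_⟩
        ext v
        rw [hEf2 φ h1 v, h4 v]
      · rintro ⟨⟨h1, h2, h3⟩, h4⟩
        refine ⟨h1, h2, h3, fun v => ?_⟩
        rw [← h4]
        exact hEf2 φ h1 v
    rw [tsum_eq_sum (s := (hfin B).toFinset.image Ef)]
    · rw [Set.ncard_eq_toFinset_card _ (hfin B), Finset.card_eq_sum_card_image Ef]
      push_cast
      refine Finset.sum_congr rfl fun E _ => ?_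
      congr 1
      rw [hNE E, ← Set.ncard_coe_finset]
      congr 1
      ext φ
      simp
    · intro E hE'
      rw [hNE E]
      have : {φ ∈ CfinS G K i₀ B | Ef φ = E} = ∅ := by
        rw [Set.eq_empty_iff_forall_notMem]
        rintro φ ⟨h1, h2⟩
        apply hE'
        rw [Finset.mem_image]
        exact ⟨φ, (hfin B).mem_toFinset.2 h1, h2⟩
      rw [this, Set.ncard_empty, Nat.cast_zero]
  refine ⟨∑' E, c E, ?_⟩
  have hdom := tendsto_tsum_of_dominated_convergence (𝓕 := (atTop : Filter ℝ))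
    (f := fun B E => ((NE G K L Dg i₀ E B).ncard : ℝ) /
      (B ^ (1 / (indG G : ℝ)) * Real.log B ^ (N - 1))) (g := c) (bound := wt) hw1
    (fun E => hEc E) (by
      filter_upwards [eventually_ge_atTop (3 : ℝ)] with B hB E
      have hlog : 0 < Real.log B := Real.log_pos (by linarith)
      have hP : 0 < B ^ (1 / (indG G : ℝ)) * Real.log B ^ (N - 1) :=
        mul_pos (Real.rpow_pos_of_pos (by linarith) _) (pow_pos hlog _)
      rw [Real.norm_of_nonneg (div_nonneg (Nat.cast_nonneg _) hP.le), div_le_iff₀ hP]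
      exact hw3 B E hB (hEf E B))
  refine hdom.congr fun B => ?_
  rw [hsum B, tsum_div_const]

end main

/-- reduction of the general case to the asymptotic formula for given sets of untyped primes -/
theorem fin_gen {n : ℕ} (hn : 2 ≤ n) (G : Subgroup (Equiv.Perm (Fin n)))
    (hG : MulAction.IsPretransitive G (Fin n))
    (hZ : ∀ g : G, g ≠ 1 → ind (g : Equiv.Perm (Fin n)) = indG G →
      ∀ h k : G, k * (g * h * g⁻¹ * h⁻¹) = g * h * g⁻¹ * h⁻¹ * k)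
    {p m u w N : ℕ} (hp : p.Prime) (Dg : GT p m u w N G)
    (hI : ∀ h : G, (h ≠ 1 ∧ ind (h : Equiv.Perm (Fin n)) = indG G) ↔ ∃ i, IsConj h (Dg.g i))
    (K₃ : IntermediateField ℚ QBar) (hK₃ : NumberField K₃)
    (hRB : ∀ K : IntermediateField ℚ QBar, K₃ ≤ K → ∀ _ : NumberField K,
      RB K QBar G ∧ RB K QBar (G ⧸ WS Dg))
    (hesp : ∀ (K : IntermediateField ℚ QBar) (_ : NumberField K) (_ : K₃ ≤ K) (_ : MOne p K)
      (ζ : K) (_ : IsPrimitiveRoot ζ p) (z : K) (_ : IsPrimitiveRoot z (Nat.card G)) (i₀ : Fin n),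
      EspP G K ζ Dg i₀) :
    ∃ K₀ : IntermediateField ℚ QBar, NumberField K₀ ∧
      ∀ K : IntermediateField ℚ QBar, K₀ ≤ K → ∀ _ : NumberField K,
        ∃ C : ℝ, 0 < C ∧ ∃ k : ℝ → ℕ, (∀ B : ℝ, Spec.nK K QBar G B = (k B : ℕ∞)) ∧
          Tendsto (fun B : ℝ => (k B : ℝ) /
            (B ^ (1 / (Spec.indG G : ℝ)) * Real.log B ^ (Spec.betaAll K QBar G - 1)))
            atTop (𝓝 C) := by
  obtain ⟨ha, ⟨g₀, hg₀, hg₀'⟩, hmin, hcj, hJ⟩ := pidx_pos hn G hG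
  have hcardpos : 0 < Nat.card G := Nat.card_pos
  have hN : 1 ≤ N := by
    obtain ⟨i, -⟩ := (hI g₀).1 ⟨hg₀, hg₀'⟩
    have := i.2
    omega
  have hpd : p ∣ Nat.card G := by
    obtain ⟨i, -⟩ := (hI g₀).1 ⟨hg₀, hg₀'⟩
    have h3 : orderOf (Dg.g i) = p := orderOf_eq_prime (Dg.pow i) (Dg.ne i) (hp := ⟨hp⟩)
    rw [← h3]
    exact orderOf_dvd_natCard _
  have i₀ : Fin n := ⟨0, by omega⟩
  obtain ⟨c₀, hc₀, hnk⟩ := nk2 G hG
  obtain ⟨K₁, hK₁, hK1⟩ := akn G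
  obtain ⟨K₂, hK₂, hK2⟩ := amain hn G hG hZ
  haveI : FiniteDimensional ℚ K₁ := hK₁.to_finiteDimensional
  haveI : FiniteDimensional ℚ K₂ := hK₂.to_finiteDimensional
  haveI : FiniteDimensional ℚ K₃ := hK₃.to_finiteDimensional
  refine ⟨K₃ ⊔ (K₁ ⊔ K₂), numberField_of_finite _, fun K hKK3 hKf => ?_⟩
  have hKK : K₁ ⊔ K₂ ≤ K := le_sup_right.trans hKK3
  have hK3K : K₃ ≤ K := le_sup_left.trans hKK3
  obtain ⟨-, ⟨z, hz⟩, i, hi⟩ := hK1 K (le_sup_left.trans hKK) hKf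
  obtain ⟨⟨c₁, B₀, hc₁, hlow⟩, -⟩ := hK2 K (le_sup_right.trans hKK) hKf
  have hp2 : H63.MA.MOne p K := by
    by_cases h2 : p = 2
    · exact ⟨i, by rw [h2]; exact hi⟩
    · exact H63.MA.mone_odd hp h2 K
  obtain ⟨r, hr⟩ := hpd
  have hζ : IsPrimitiveRoot (z ^ r) p := hz.pow hcardpos (by rw [hr]; ring)
  obtain ⟨hfin, c, hcl⟩ := fin_lim G K hn hG hp hp2 hζ Dg (hRB K hK3K hKf).1 (hRB K hK3K hKf).2
    hN hI z hz i₀ (hesp K hKf hK3K hp2 (z ^ r) hζ z hz i₀)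
  have hβ := abet G K z hz Dg hI
  have hk : ∀ B : ℝ, ∃ k : ℕ, Spec.nK K QBar G B = (k : ℕ∞) ∧
      k * c₀ = (CfinS G K i₀ B).ncard := fun B => hnk K hKf i₀ B (hfin B)
  choose k hk1 hk2 using hk
  have hc₀R : (0 : ℝ) < (c₀ : ℝ) := by exact_mod_cast hc₀
  have hlim : Tendsto (fun B : ℝ => (k B : ℝ) /
        (B ^ (1 / (Spec.indG G : ℝ)) * Real.log B ^ (Spec.betaAll K QBar G - 1)))
        atTop (𝓝 (c / (c₀ : ℝ))) := by
    refine (hcl.div_const (c₀ : ℝ)).congr fun B => ?_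
    rw [← hk2 B, hβ]
    push_cast
    have : H38.ML.indG G = Spec.indG G := rfl
    rw [this]
    field_simp
  refine ⟨c / (c₀ : ℝ), ?_, k, hk1, hlim⟩
  refine lt_of_lt_of_le hc₁ (ge_of_tendsto hlim ?_)
  filter_upwards [eventually_ge_atTop B₀, eventually_gt_atTop 1] with B hB hB1
  have h1 := hlow B hB
  rw [hk1 B] at h1
  have h2 : (⌈c₁ * B ^ (1 / (indG G : ℝ)) * Real.log B ^ (Spec.betaAll K QBar G - 1)⌉₊ : ℕ) ≤
      k B := by exact_mod_cast h1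
  have h3 : c₁ * B ^ (1 / (indG G : ℝ)) * Real.log B ^ (Spec.betaAll K QBar G - 1) ≤
      (k B : ℝ) := (Nat.le_ceil _).trans (by exact_mod_cast h2)
  have hP : 0 < B ^ (1 / (Spec.indG G : ℝ)) * Real.log B ^ (Spec.betaAll K QBar G - 1) :=
    mul_pos (Real.rpow_pos_of_pos (by linarith) _) (pow_pos (Real.log_pos hB1) _)
  rw [le_div_iff₀ hP, ← mul_assoc]
  exact h3

/-- the second centre case, from the counting hypothesis over `K₃` -/
theorem fin_main {n : ℕ} (hn : 2 ≤ n) (G : Subgroup (Equiv.Perm (Fin n)))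
    (hG : MulAction.IsPretransitive G (Fin n))
    (hZ : ∀ g : G, g ≠ 1 → ind (g : Equiv.Perm (Fin n)) = indG G →
      ∀ h k : G, k * (g * h * g⁻¹ * h⁻¹) = g * h * g⁻¹ * h⁻¹ * k)
    (hc : ∃ g : G, g ≠ 1 ∧ ind (g : Equiv.Perm (Fin n)) = indG G ∧ ∀ h : G, g * h = h * g)
    (K₃ : IntermediateField ℚ QBar) (hK₃ : NumberField K₃)
    (hRB : ∀ K : IntermediateField ℚ QBar, K₃ ≤ K → ∀ _ : NumberField K,
      RB K QBar G ∧ ∀ (W : Subgroup G) [W.Normal], RB K QBar (G ⧸ W)) :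
    ∃ K₀ : IntermediateField ℚ QBar, NumberField K₀ ∧
      ∀ K : IntermediateField ℚ QBar, K₀ ≤ K → ∀ _ : NumberField K,
        ∃ C : ℝ, 0 < C ∧ ∃ k : ℝ → ℕ, (∀ B : ℝ, Spec.nK K QBar G B = (k B : ℕ∞)) ∧
          Tendsto (fun B : ℝ => (k B : ℝ) /
            (B ^ (1 / (Spec.indG G : ℝ)) * Real.log B ^ (Spec.betaAll K QBar G - 1)))
            atTop (𝓝 C) := by
  obtain ⟨p, m, u, w, N, hp, Dg, hI⟩ := fin_GT hn G hG hZ
  obtain ⟨ha, ⟨g₀, hg₀, hg₀'⟩, -, -, -⟩ := pidx_pos hn G hG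
  have hN : 1 ≤ N := by
    obtain ⟨i, -⟩ := (hI g₀).1 ⟨hg₀, hg₀'⟩
    have := i.2
    omega
  refine fin_gen hn G hG hZ hp Dg hI K₃ hK₃ (fun K hK hKf => ⟨(hRB K hK hKf).1,
    (hRB K hK hKf).2 (WS Dg)⟩) fun K hKf hK3 hp2 ζ hζ z hz i₀ D hD L Q hLQ E => ?_
  exact esp hn G hG hp K hp2 hζ Dg hN (fin_hcen hn G hG hp Dg hI hc)
    (fun h i hi => ((hI h).2 ⟨i, hi⟩).2) ha
    (fun D' L' _ => isb_fin D' L' Dg (rbl_of D' L' _ ((hRB K hK3 hKf).2 (WS Dg))))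
    D hD L Q hLQ i₀ E

end H51.TC
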