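import Pool.Agent.H51.TC.Grp
import Mathlib.GroupTheory.SpecificGroups.Alternating.KleinFour

/-!
# TC-CFB: a group which is `A_4` modulo a term of the upper central series is in `CF` (complete)
-/

set_option autoImplicit false

open scoped commutatorElement

namespace H51.TC

theorem cf_a4 {G : Type} [Group G] (k : ℕ)
    (hA : Nonempty (G ⧸ Subgroup.upperCentralSeries G k ≃* alternatingGroup (Fin 4))) : CF G := by
  classical
  obtain ⟨e⟩ := hA
  let f : G →* alternatingGroup (Fin 4) :=
    e.toMonoidHom.comp (QuotientGroup.mk' (Subgroup.upperCentralSeries G k))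
  have hf : Function.Surjective f := e.surjective.comp (QuotientGroup.mk'_surjective _)
  have hker : Subgroup.upperCentralSeries G k = (⊥ : Subgroup (alternatingGroup (Fin 4))).comap f := by
    ext x
    rw [Subgroup.mem_comap, Subgroup.mem_bot]
    change _ ↔ e (QuotientGroup.mk' (Subgroup.upperCentralSeries G k) x) = 1
    rw [MulEquiv.map_eq_one_iff, ← MonoidHom.mem_ker, QuotientGroup.ker_mk']
  have hc4 : Nat.card (commutator (alternatingGroup (Fin 4))) = 4 := by
    rw [← alternatingGroup.kleinFour_eq_commutator (α := Fin 4) (by simp)]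
    exact alternatingGroup.kleinFour_card_of_card_eq_four (by simp)
  let N : ℕ → Subgroup G := fun i => if i ≤ k then Subgroup.upperCentralSeries G i else
    if i = k + 1 then (commutator (alternatingGroup (Fin 4))).comap f else ⊤
  have hN1 : ∀ i, i ≤ k → N i = Subgroup.upperCentralSeries G i := fun i hi => if_pos hi
  have hN2 : N (k + 1) = (commutator (alternatingGroup (Fin 4))).comap f := by
    change (if k + 1 ≤ k then Subgroup.upperCentralSeries G (k + 1) else
      if k + 1 = k + 1 then (commutator (alternatingGroup (Fin 4))).comap f else ⊤) = _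
    rw [if_neg (by omega), if_pos rfl]
  have hN3 : ∀ i, k + 1 < i → N i = ⊤ := by
    intro i hi
    change (if i ≤ k then Subgroup.upperCentralSeries G i else
      if i = k + 1 then (commutator (alternatingGroup (Fin 4))).comap f else ⊤) = _
    rw [if_neg (by omega), if_neg (by omega)]
  refine ⟨k + 2, k, N, ?_, hN3 _ (by omega), fun i => ?_, fun i hi => ?_⟩
  · rw [hN1 0 (Nat.zero_le k)]
    exact Subgroup.upperCentralSeries_zero G
  · rcases lt_trichotomy i (k + 1) with h | h | h
    · rw [hN1 i (by omega)]
      infer_instance
    · rw [h, hN2]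
      infer_instance
    · rw [hN3 i h]
      infer_instance
  · rcases lt_trichotomy i k with h | h | h
    · rw [hN1 i h.le, hN1 (i + 1) h]
      refine ⟨Subgroup.upperCentralSeries_mono G (Nat.le_succ i), fun _ x hx g => ?_,
        fun h' => absurd h' h.ne⟩
      rw [Subgroup.mem_upperCentralSeries_succ_iff] at hx
      have h1 := (Subgroup.upperCentralSeries G i).inv_mem (hx g)
      have h2 : ⁅x, g⁆⁻¹ = g * x * g⁻¹ * x⁻¹ := by
        rw [commutatorElement_def]
        group
      rwa [h2] at h1
    · subst h
      rw [hN1 i le_rfl, hN2, hker]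
      refine ⟨Subgroup.comap_mono bot_le, fun h' => absurd rfl h', fun _ => ?_⟩
      rw [Subgroup.relIndex_comap, Subgroup.map_comap_eq_self_of_surjective hf,
        Subgroup.relIndex_bot_left, hc4]
    · have hi' : i = k + 1 := by omega
      subst hi'
      rw [hN2, hN3 (k + 1 + 1) (by omega)]
      refine ⟨le_top, fun _ x _ g => ?_, fun h' => absurd h' (by omega)⟩
      rw [Subgroup.mem_comap, map_mul, map_mul, map_mul, map_inv, map_inv]
      exact Subgroup.commutator_mem_commutator trivial trivial

end H51.TC
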