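import Pool.Agent.H51.TC.Led

/-!
# TC-BAS: the base homomorphism of an arbitrary `φ`

`h i` the primes of type `i` in the wide sense, `A` the other ramified primes: `β = mkW φ * (vqW (eta h))⁻¹ : Γ → G ⧸ W` is of finite type and
unramified outside `S0 ∪ A` (proof of `gof` in H38/AS/GOf.lean).
-/

set_option autoImplicit false

open scoped NumberField
open IsDedekindDomain
open scoped Classical

noncomputable section

namespace H51.TC

open H63.MA H38.BB H38.BG H38.AS H63.BU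

variable {K : Type} [Field K] [NumberField K] {Ω : Type} [Field Ω] [Algebra K Ω] [IsAlgClosure K Ω]
  {p : ℕ} {ζ : K} {m u w N : ℕ} {G : Type} [Group G]

private theorem bas_kk1 (x : Kˣ) : kk p ζ x (1 : Gal(Ω/K)) = 0 := by
  unfold kk
  rw [map_one, toAdd_one]

private theorem bas_kkm (x : Kˣ) (σ τ : Gal(Ω/K)) :
    kk p ζ x (σ * τ) = kk p ζ x σ + kk p ζ x τ := by
  unfold kk
  rw [map_mul, toAdd_mul]

private theorem bas_eta1 (D : RD0 K p ζ) (Dg : GT p m u w N G) (f : Fin N → Finset (Pl K)) :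
    eta D Dg f (1 : Gal(Ω/K)) = 0 := by
  funext k
  exact bas_kk1 _

private theorem bas_etam (D : RD0 K p ζ) (Dg : GT p m u w N G) (f : Fin N → Finset (Pl K))
    (σ τ : Gal(Ω/K)) : eta D Dg f (σ * τ) = eta D Dg f σ + eta D Dg f τ := by
  funext k
  exact bas_kkm _ _ _

private theorem bas_vpow (Dg : GT p m u w N G) (x : Fin u → ZMod p) (n : ℕ) :
    vqW Dg x ^ n = vqW Dg ((n : ZMod p) • x) := by
  induction n with
  | zero => rw [pow_zero, Nat.cast_zero, zero_smul, vqW_zero]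
  | succ n ih => rw [pow_succ, ih, ← vqW_add, Nat.cast_succ, add_smul, one_smul]

/-- the base homomorphism -/
def basB (D : RD0 K p ζ) (Dg : GT p m u w N G) (φ : Gal(Ω/K) →* G)
    (f : Fin N → Finset (Pl K)) : Gal(Ω/K) →* G ⧸ WS Dg where
  toFun σ := mkW Dg (φ σ) * (vqW Dg (eta D Dg f σ))⁻¹
  map_one' := by
    rw [bas_eta1, vqW_zero, inv_one, mul_one, map_one, map_one]
  map_mul' σ τ := by
    have h1 : mkW Dg (φ τ) * (vqW Dg (eta D Dg f σ))⁻¹ =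
        (vqW Dg (eta D Dg f σ))⁻¹ * mkW Dg (φ τ) := by
      have h2 := vqW_cen Dg (eta D Dg f σ) (mkW Dg (φ τ))
      rw [mul_inv_eq_iff_eq_mul, mul_assoc, ← h2, inv_mul_cancel_left]
    have h3 : (vqW Dg (eta D Dg f τ))⁻¹ * (vqW Dg (eta D Dg f σ))⁻¹ =
        (vqW Dg (eta D Dg f σ))⁻¹ * (vqW Dg (eta D Dg f τ))⁻¹ := by
      rw [← mul_inv_rev, ← mul_inv_rev, vqW_cen]
    rw [map_mul, map_mul, bas_etam, vqW_add, mul_inv_rev, h3]
    calc mkW Dg (φ σ) * mkW Dg (φ τ) *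
        ((vqW Dg (eta D Dg f σ))⁻¹ * (vqW Dg (eta D Dg f τ))⁻¹) =
        mkW Dg (φ σ) * (mkW Dg (φ τ) * (vqW Dg (eta D Dg f σ))⁻¹) *
          (vqW Dg (eta D Dg f τ))⁻¹ := by group
      _ = mkW Dg (φ σ) * ((vqW Dg (eta D Dg f σ))⁻¹ * mkW Dg (φ τ)) *
          (vqW Dg (eta D Dg f τ))⁻¹ := by rw [h1]
      _ = _ := by group

theorem basB_apply (D : RD0 K p ζ) (Dg : GT p m u w N G) (φ : Gal(Ω/K) →* G)
    (f : Fin N → Finset (Pl K)) (σ : Gal(Ω/K)) :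
    basB D Dg φ f σ = mkW Dg (φ σ) * (vqW Dg (eta D Dg f σ))⁻¹ := rfl

private theorem basB_ft (hp : p.Prime) (hζ : IsPrimitiveRoot ζ p) (D : RD0 K p ζ)
    (Dg : GT p m u w N G) (φ : Gal(Ω/K) →* G) (hφ : H38.ML.FT φ)
    (f : Fin N → Finset (Pl K)) : H38.ML.FT (basB D Dg φ f) := by
  obtain ⟨E, hE, hle⟩ := hφ
  have h1 : ∀ k : Fin u, ∃ F : IntermediateField K Ω, FiniteDimensional K F ∧
      F.fixingSubgroup ≤ (kc p ζ Ω (xi D Dg.y f k)).ker := fun k =>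
    (kc_is (Ω := Ω) hp hζ (xi D Dg.y f k)).1
  choose F hF1 hF2 using h1
  have hfd : FiniteDimensional K (⨆ k, F k : IntermediateField K Ω) :=
    IntermediateField.finiteDimensional_iSup_of_finite
  refine ⟨E ⊔ ⨆ k, F k, inferInstance, fun σ hσ => ?_⟩
  have h2 : σ ∈ E.fixingSubgroup := IntermediateField.fixingSubgroup_antitone le_sup_left hσ
  have h3 : ∀ k, σ ∈ (F k).fixingSubgroup := fun k =>
    IntermediateField.fixingSubgroup_antitone ((le_iSup F k).trans le_sup_right) hσ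
  have h4 := hle h2
  rw [MonoidHom.mem_ker] at h4 ⊢
  have h5 : eta D Dg f σ = 0 := by
    funext k
    have h6 := hF2 k (h3 k)
    rw [MonoidHom.mem_ker] at h6
    show kk p ζ (xi D Dg.y f k) σ = 0
    unfold kk
    rw [h6, toAdd_one]
  rw [basB_apply, h4, h5, vqW_zero, inv_one, mul_one, map_one]

theorem bas [Finite G] (hp : p.Prime) (hζ : IsPrimitiveRoot ζ p) (D : RD0 K p ζ) (L : LDs D Ω)
    (Dg : GT p m u w N G) (φ : Gal(Ω/K) →* G) (hφ : H38.ML.FT φ) (h : Fin N → Finset (Pl K))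
    (A : Finset (Pl K)) (hh : ∀ i v, v ∈ h i ↔ Ti Dg L φ i v)
    (hA : ∀ v, v ∈ A ↔ Rm L φ v ∧ ∀ i, ¬ Ti Dg L φ i v) :
    ∃ β ∈ HB D L (G ⧸ WS Dg) A, ∀ σ, mkW Dg (φ σ) = β σ * vqW Dg (eta D Dg h σ) := by
  have hok : Ok D h := ⟨fun i j hij => Finset.disjoint_left.2 fun v hi hj => hij
    (ti_uni L Dg φ i j v ((hh i v).1 hi) ((hh j v).1 hj)), fun i v hv => ((hh i v).1 hv).1⟩
  have hun : ∀ v, v ∉ D.S0 → v ∉ A → (∀ i, v ∉ h i) → ∀ τ ∈ inr L v, φ τ = 1 := by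
    intro v hv hvA hvf τ hτ
    by_contra hne
    exact hvA ((hA v).2 ⟨⟨hv, τ, hτ, hne⟩, fun i hi => hvf i ((hh i v).2 hi)⟩)
  refine ⟨basB D Dg φ h, ⟨basB_ft hp hζ D Dg φ hφ h, fun v hv hvA τ hτ => ?_⟩, fun σ => ?_⟩
  · rw [basB_apply, mul_inv_eq_one]
    by_cases hex : ∃ i, v ∈ h i
    · obtain ⟨i, hi⟩ := hex
      have hTy := (hh i v).1 hi
      haveI : NeZero p := ⟨hp.ne_zero⟩
      rw [(eta_in hp hζ D L Dg h hok v hv τ hτ).1 i hi,
        tm_z hp hζ L φ hφ v hv hTy.2.2 τ hτ]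
      obtain ⟨z, hz⟩ := (gt_conj Dg i _).1 hTy.2.1
      rw [hz, map_pow, mkW_e, bas_vpow, ZMod.natCast_zmod_val]
    · have hvf : ∀ i, v ∉ h i := fun i hi => hex ⟨i, hi⟩
      rw [(eta_in hp hζ D L Dg h hok v hv τ hτ).2 hvf, hun v hv hvA hvf τ hτ, vqW_zero, map_one]
  · rw [basB_apply, inv_mul_cancel_right]

end H51.TC
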