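import Pool.Agent.H51.TC.Grp

/-!
# TC-CFA: a finite group in `CF` is nilpotent or `A_4` modulo the hypercentre

Proof. Induction on the order, modulo the centre. Centre trivial: let `V` be the factor of order dividing 4, the first non-trivial term
of the series. No element other than 1 is central, so `#V = 4`, `x^2 = 1` on `V`. `hmin` (from the central factors above `V`): every
non-empty set `D` disjoint from `V` contains an `x` with `[g, x] ∉ D` for all `g`. `C` the centraliser of `V`. `D` the complement of `C`: `t`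
with `[g, t] ∈ C`; `t` acts on `V` without fixed points, `G = C ∪ t C ∪ t^2 C`. If `C ≠ V`, `D = C ∖ V`: `c` with `[g, c] ∈ V` for all
`g`; replace `c` by `v c` which commutes with `t`; `D = {x ∈ C, [c, x] ≠ 1}` is empty; so `c` is central. So `C = V`, `t^3 = 1`, the
action on the cosets of `⟨t⟩` is injective, with image in `A_4`.
-/

set_option autoImplicit false

namespace H51.TC

variable {G : Type} [Group G]

/-- the set of the commutator condition -/
def Mn (V : Subgroup G) : Prop :=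
  ∀ D : Set G, D.Nonempty → (∀ x ∈ D, x ∉ V) → ∃ x ∈ D, ∀ g : G, g * x * g⁻¹ * x⁻¹ ∉ D

theorem cfa_mn (m : ℕ) (N : ℕ → Subgroup G) (hm : N m = ⊤)
    (hs : ∀ i < m, ∀ x ∈ N (i + 1), ∀ g : G, g * x * g⁻¹ * x⁻¹ ∈ N i) : Mn (N 0) := by
  classical
  intro D hD h0
  have hex : ∃ i, ∃ x ∈ D, x ∈ N i := by
    obtain ⟨x, hx⟩ := hD
    exact ⟨m, x, hx, by rw [hm]; trivial⟩
  obtain ⟨x, hx, hxN⟩ := Nat.find_spec hex
  have hmin := fun j (hj : j < Nat.find hex) => Nat.find_min hex hj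
  have hle : Nat.find hex ≤ m := by
    apply Nat.find_min'
    obtain ⟨x, hx⟩ := hD
    exact ⟨x, hx, by rw [hm]; trivial⟩
  rcases Nat.eq_zero_or_pos (Nat.find hex) with h | h
  · rw [h] at hxN
    exact absurd hxN (h0 x hx)
  · obtain ⟨j, hj⟩ : ∃ j, Nat.find hex = j + 1 := ⟨Nat.find hex - 1, by omega⟩
    rw [hj] at hxN
    refine ⟨x, hx, fun g hg => ?_⟩
    exact hmin j (by omega) ⟨_, hg, hs j (by omega) x hxN g⟩

theorem cfa_series (h : CF G) (hZ : ∀ z : G, (∀ g, g * z = z * g) → z = 1) :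
    Subsingleton G ∨ ∃ V : Subgroup G, V.Normal ∧ Nat.card V ∣ 4 ∧ Mn V := by
  obtain ⟨k, j, N, h0, hk, hn, hs⟩ := h
  have hbot : ∀ i, i ≤ j → i ≤ k → N i = ⊥ := by
    intro i
    induction i with
    | zero => exact fun _ _ => h0
    | succ i ih =>
      intro h1 h2
      rw [eq_bot_iff]
      intro x hx
      rw [Subgroup.mem_bot]
      apply hZ
      intro g
      have h3 := (hs i (by omega)).2.1 (by omega) x hx g
      rw [ih (by omega) (by omega), Subgroup.mem_bot, mul_inv_eq_one, mul_inv_eq_iff_eq_mul] at h3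
      exact h3
  rcases Nat.lt_or_ge j k with hjk | hjk
  · right
    refine ⟨N (j + 1), hn _, ?_, ?_⟩
    · have h1 := (hs j hjk).2.2 rfl
      rw [hbot j le_rfl hjk.le, Subgroup.relIndex_bot_left] at h1
      exact h1
    · have h1 := cfa_mn (k - (j + 1)) (fun i => N (j + 1 + i)) (by
        rw [show j + 1 + (k - (j + 1)) = k by omega]
        exact hk) (fun i hi x hx g => (hs (j + 1 + i) (by omega)).2.1 (by omega) x hx g)
      exact h1
  · left
    have h1 := hbot k hjk le_rfl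
    rw [hk] at h1
    refine ⟨fun a b => ?_⟩
    have ha : a ∈ (⊤ : Subgroup G) := trivial
    have hb : b ∈ (⊤ : Subgroup G) := trivial
    rw [h1, Subgroup.mem_bot] at ha hb
    rw [ha, hb]

/-- `V` is not of order 1 or 2 -/
theorem cfa_four [Finite G] (V : Subgroup G) [V.Normal] (hV : Nat.card V ∣ 4) (hmn : Mn V)
    (hZ : ∀ z : G, (∀ g, g * z = z * g) → z = 1) : Subsingleton G ∨ Nat.card V = 4 := by
  have hle : Nat.card V ≤ 4 := Nat.le_of_dvd (by norm_num) hV
  have hpos : 0 < Nat.card V := Nat.card_pos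
  by_cases h4 : Nat.card V = 4
  · exact Or.inr h4
  left
  have h3 : Nat.card V ≠ 3 := by
    intro h
    rw [h] at hV
    norm_num at hV
  by_cases h1 : Nat.card V = 1
  · rw [Subgroup.card_eq_one] at h1
    by_contra hc
    rw [not_subsingleton_iff_nontrivial] at hc
    obtain ⟨a, ha⟩ := exists_ne (1 : G)
    obtain ⟨x, hx, hx2⟩ := hmn {x | x ≠ 1} ⟨a, ha⟩ (fun x hx => by
      rw [h1, Subgroup.mem_bot]
      exact hx)
    apply hx
    apply hZ
    intro g
    have h5 := hx2 g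
    rw [Set.mem_ofPred_eq, not_not, mul_inv_eq_one, mul_inv_eq_iff_eq_mul] at h5
    exact h5
  · exfalso
    have h2 : Nat.card V = 2 := by omega
    rw [Nat.card_eq_two_iff' (1 : V)] at h2
    obtain ⟨⟨z, hz⟩, hz1, hz2⟩ := h2
    apply hz1
    apply Subtype.ext
    change z = 1
    apply hZ
    intro g
    have h5 := hz2 ⟨g * z * g⁻¹, Subgroup.Normal.conj_mem ‹_› z hz g⟩ (by
      intro h
      have h6 := congrArg Subtype.val h
      change g * z * g⁻¹ = 1 at h6
      apply hz1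
      apply Subtype.ext
      change z = 1
      have h7 := congrArg (fun y => g⁻¹ * y * g) h6
      simpa [mul_assoc] using h7)
    have h6 := congrArg Subtype.val h5
    change g * z * g⁻¹ = z at h6
    rwa [mul_inv_eq_iff_eq_mul] at h6

/-- `V` is of exponent 2 -/
theorem cfa_exp [Finite G] (V : Subgroup G) [V.Normal] (hV : Nat.card V = 4)
    (hZ : ∀ z : G, (∀ g, g * z = z * g) → z = 1) : ∀ x ∈ V, x * x = 1 := by
  intro x hx
  apply hZ
  intro g
  by_contra hne
  have hx2 : x * x ≠ 1 := by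
    intro h
    rw [h, mul_one, one_mul] at hne
    exact hne rfl
  have ho : orderOf x = 4 := by
    have h1 : orderOf x ∣ 4 := by
      have h2 := orderOf_dvd_natCard (⟨x, hx⟩ : V)
      rw [hV] at h2
      rwa [← Subgroup.orderOf_coe] at h2
    have h3 : orderOf x ≠ 1 := by
      intro h
      rw [orderOf_eq_one_iff] at h
      rw [h, mul_one] at hx2
      exact hx2 rfl
    have h4 : orderOf x ≠ 2 := by
      intro h
      have h5 := pow_orderOf_eq_one x
      rw [h, pow_two] at h5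
      exact hx2 h5
    have h5 : orderOf x ≤ 4 := Nat.le_of_dvd (by norm_num) h1
    have h6 : orderOf x ≠ 3 := by
      intro h
      rw [h] at h1
      norm_num at h1
    have h7 : orderOf x ≠ 0 := (orderOf_pos x).ne'
    omega
  have hzp : Subgroup.zpowers x = V := by
    apply Subgroup.eq_of_le_of_card_ge
    · rw [Subgroup.zpowers_le]
      exact hx
    · rw [hV, Nat.card_zpowers, ho]
  have hy : g * x * g⁻¹ ∈ Subgroup.zpowers x := by
    rw [hzp]
    exact Subgroup.Normal.conj_mem ‹_› x hx g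
  obtain ⟨k, hk⟩ := Subgroup.mem_zpowers_iff.1 hy
  have h4 : x ^ (4 : ℤ) = 1 := by
    have h := pow_orderOf_eq_one x
    rw [ho] at h
    exact_mod_cast h
  have hsq : g * (x * x) * g⁻¹ = (x ^ k) * (x ^ k) := by
    rw [hk]
    group
  rcases Int.even_or_odd' k with ⟨l, hl | hl⟩
  · have h5 : (x ^ k) * (x ^ k) = 1 := by
      rw [← zpow_add, hl, show 2 * l + 2 * l = 4 * l by ring, zpow_mul, h4, one_zpow]
    rw [h5] at hsq
    apply hx2
    have h7 := congrArg (fun y => g⁻¹ * y * g) hsq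
    simpa [mul_assoc] using h7
  · have h5 : (x ^ k) * (x ^ k) = x * x := by
      rw [← zpow_add, hl, show 2 * l + 1 + (2 * l + 1) = 4 * l + 2 by ring, zpow_add, zpow_mul, h4,
        one_zpow, one_mul, zpow_two]
    rw [h5, mul_inv_eq_iff_eq_mul] at hsq
    exact hne hsq

/-- the action on the three elements of `V` of order 2 -/
theorem cfa_psi [Finite G] (V : Subgroup G) [V.Normal] (hV : Nat.card V = 4) :
    ∃ (ψ : G →* Equiv.Perm (Fin 3)) (w : Fin 3 → G), Function.Injective w ∧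
      (∀ i, w i ∈ V ∧ w i ≠ 1) ∧ (∀ v ∈ V, v ≠ 1 → ∃ i, w i = v) ∧
        ∀ g i, w (ψ g i) = g * w i * g⁻¹ := by
  classical
  have hcard : Nat.card {v : V // v ≠ 1} = 3 := by
    have := Fintype.ofFinite V
    rw [Nat.card_eq_fintype_card, Fintype.card_subtype_compl, Fintype.card_subtype_eq,
      ← Nat.card_eq_fintype_card, hV]
  have e : Fin 3 ≃ {v : V // v ≠ 1} := by
    have := Fintype.ofFinite {v : V // v ≠ 1}
    exact Fintype.equivOfCardEq (by
      rw [← Nat.card_eq_fintype_card (α := {v : V // v ≠ 1}), hcard, Fintype.card_fin])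
  let w : Fin 3 → G := fun i => ((e i).1 : G)
  have hw : Function.Injective w := by
    intro i j hij
    exact e.injective (Subtype.ext (Subtype.ext hij))
  have hw1 : ∀ i, w i ∈ V ∧ w i ≠ 1 := by
    intro i
    refine ⟨(e i).1.2, fun h => (e i).2 (Subtype.ext h)⟩
  have hcj : ∀ (g : G) (i : Fin 3), (⟨g * w i * g⁻¹, Subgroup.Normal.conj_mem ‹_› _ (hw1 i).1 g⟩ : V) ≠
      1 := by
    intro g i h
    have h6 := congrArg Subtype.val h
    change g * w i * g⁻¹ = 1 at h6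
    apply (hw1 i).2
    have h7 := congrArg (fun y => g⁻¹ * y * g) h6
    simpa [mul_assoc] using h7
  let p : G → Fin 3 → Fin 3 := fun g i => e.symm ⟨_, hcj g i⟩
  have hp : ∀ g i, w (p g i) = g * w i * g⁻¹ := by
    intro g i
    change ((e (e.symm ⟨_, hcj g i⟩)).1 : G) = _
    rw [Equiv.apply_symm_apply]
  let A : MulAction G (Fin 3) :=
    { smul := p
      one_smul := fun i => hw (by
        change w (p 1 i) = w i
        rw [hp]
        group)
      mul_smul := fun g h i => hw (by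
        change w (p (g * h) i) = w (p g (p h i))
        rw [hp, hp, hp]
        group) }
  refine ⟨MulAction.toPermHom G (Fin 3), w, hw, hw1, fun v hv hv1 => ?_, fun g i => hp g i⟩
  refine ⟨e.symm ⟨⟨v, hv⟩, fun h => hv1 (congrArg Subtype.val h)⟩, ?_⟩
  change ((e (e.symm _)).1 : G) = v
  rw [Equiv.apply_symm_apply]

private theorem f1 : ∀ σ : Equiv.Perm (Fin 3), σ ≠ 1 → ∀ i, σ i = i →
    ∀ τ : Equiv.Perm (Fin 3), τ * σ = σ * τ → τ i = i := by
  decide

private theorem f2 : ∀ σ : Equiv.Perm (Fin 3), (∀ i, σ i ≠ i) →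
    ∀ τ : Equiv.Perm (Fin 3), τ * σ = σ * τ → τ = 1 ∨ τ = σ ∨ τ = σ * σ := by
  decide

private theorem f3 : ∀ σ : Equiv.Perm (Fin 3), (∀ i, σ i ≠ i) → σ * σ * σ = 1 := by
  decide

theorem cfa_comm (V : Subgroup G) (hexp : ∀ x ∈ V, x * x = 1) :
    ∀ x ∈ V, ∀ y ∈ V, x * y = y * x := by
  intro x hx y hy
  have h1 := hexp (x * y) (V.mul_mem hx hy)
  have h2 := hexp x hx
  have h3 := hexp y hy
  have h4 : x⁻¹ = x := inv_eq_of_mul_eq_one_left h2
  have h5 : y⁻¹ = y := inv_eq_of_mul_eq_one_left h3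
  have h6 : (x * y)⁻¹ = x * y := inv_eq_of_mul_eq_one_left h1
  rw [mul_inv_rev, h4, h5] at h6
  exact h6.symm

/-- the element `t` -/
theorem cfa_t [Finite G] (V : Subgroup G) [V.Normal] (hV : Nat.card V = 4) (hmn : Mn V)
    (hZ : ∀ z : G, (∀ g, g * z = z * g) → z = 1) (hexp : ∀ x ∈ V, x * x = 1) :
    ∃ t : G, (∀ v ∈ V, t * v * t⁻¹ = v → v = 1) ∧ (∀ v ∈ V, (t * t * t) * v = v * (t * t * t)) ∧
      ∀ g : G, (∀ v ∈ V, g * v = v * g) ∨ (∀ v ∈ V, (t⁻¹ * g) * v = v * (t⁻¹ * g)) ∨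
        ∀ v ∈ V, ((t * t)⁻¹ * g) * v = v * ((t * t)⁻¹ * g) := by
  obtain ⟨ψ, w, hw, hwV, hws, hψ⟩ := cfa_psi V hV
  have hcomm := cfa_comm V hexp
  have hone : ∀ g : G, ψ g = 1 → ∀ v ∈ V, g * v = v * g := by
    intro g hg v hv
    by_cases hv1 : v = 1
    · rw [hv1, mul_one, one_mul]
    obtain ⟨i, rfl⟩ := hws v hv hv1
    have h1 := hψ g i
    rw [hg, Equiv.Perm.one_apply] at h1
    rw [← mul_inv_eq_iff_eq_mul]
    exact h1.symm
  obtain ⟨t, ht, ht2⟩ := hmn {x | ψ x ≠ 1} (by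
    by_contra hc
    rw [Set.not_nonempty_iff_eq_empty] at hc
    apply (hwV 0).2
    apply hZ
    intro g
    refine hone g ?_ _ (hwV 0).1
    by_contra h
    have h1 : g ∈ ({x | ψ x ≠ 1} : Set G) := h
    rw [hc] at h1
    exact h1) (fun x hx hxV => by
    apply hx
    apply Equiv.ext
    intro i
    rw [Equiv.Perm.one_apply]
    apply hw
    rw [hψ, mul_inv_eq_iff_eq_mul]
    exact hcomm x hxV _ (hwV i).1)
  have hc : ∀ g : G, ψ g * ψ t = ψ t * ψ g := by
    intro g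
    have h1 := ht2 g
    rw [Set.mem_ofPred_eq, not_not, map_mul, map_mul, map_mul, map_inv, map_inv, mul_inv_eq_one,
      mul_inv_eq_iff_eq_mul] at h1
    exact h1
  have hfix : ∀ i, ψ t i ≠ i := by
    intro i hi
    apply (hwV i).2
    apply hZ
    intro g
    have h1 := f1 (ψ t) ht i hi (ψ g) (hc g)
    have h2 := hψ g i
    rw [h1] at h2
    rw [← mul_inv_eq_iff_eq_mul]
    exact h2.symm
  refine ⟨t, fun v hv h => ?_, ?_, fun g => ?_⟩
  · by_contra hv1
    obtain ⟨i, rfl⟩ := hws v hv hv1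
    apply hfix i
    apply hw
    rw [hψ, h]
  · apply hone
    rw [map_mul, map_mul]
    exact f3 _ hfix
  · rcases f2 (ψ t) hfix (ψ g) (hc g) with h | h | h
    · exact Or.inl (hone g h)
    · refine Or.inr (Or.inl (hone _ ?_))
      rw [map_mul, map_inv, h, inv_mul_cancel]
    · refine Or.inr (Or.inr (hone _ ?_))
      rw [map_mul, map_inv, map_mul, h, inv_mul_cancel]

/-- `v ↦ v t v⁻¹ t⁻¹` is surjective on `V` -/
theorem cfa_sur [Finite G] (V : Subgroup G) [hN : V.Normal] (t : G)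
    (ht : ∀ v ∈ V, t * v * t⁻¹ = v → v = 1) (x : G) (hx : x ∈ V) :
    ∃ v ∈ V, v * t * v⁻¹ * t⁻¹ = x := by
  let q : V → V := fun v => ⟨v.1 * (t * v.1⁻¹ * t⁻¹),
    V.mul_mem v.2 (hN.conj_mem _ (V.inv_mem v.2) t)⟩
  have hq : Function.Injective q := by
    rintro ⟨v, hv⟩ ⟨w, hw⟩ h
    have h1 := congrArg Subtype.val h
    change v * (t * v⁻¹ * t⁻¹) = w * (t * w⁻¹ * t⁻¹) at h1
    have h2 : w⁻¹ * v = 1 := by
      apply ht _ (V.mul_mem (V.inv_mem hw) hv)
      rw [mul_inv_eq_iff_eq_mul]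
      have h3 := congrArg (fun y => w⁻¹ * y * t * v) h1
      have h4 : w⁻¹ * (v * (t * v⁻¹ * t⁻¹)) * t * v = w⁻¹ * v * t := by group
      have h5 : w⁻¹ * (w * (t * w⁻¹ * t⁻¹)) * t * v = t * (w⁻¹ * v) := by group
      rw [h4, h5] at h3
      exact h3.symm
    apply Subtype.ext
    rw [inv_mul_eq_one] at h2
    exact h2.symm
  obtain ⟨⟨v, hv⟩, h⟩ := Finite.surjective_of_injective hq ⟨x, hx⟩
  refine ⟨v, hv, ?_⟩
  have h1 := congrArg Subtype.val h
  change v * (t * v⁻¹ * t⁻¹) = x at h1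
  rw [← h1]
  group

/-- the centraliser of `V` is `V` -/
theorem cfa_cen [Finite G] (V : Subgroup G) [hN : V.Normal] (hmn : Mn V)
    (hZ : ∀ z : G, (∀ g, g * z = z * g) → z = 1) (hexp : ∀ x ∈ V, x * x = 1) (t : G)
    (ht : ∀ v ∈ V, t * v * t⁻¹ = v → v = 1)
    (h3 : ∀ g : G, (∀ v ∈ V, g * v = v * g) ∨ (∀ v ∈ V, (t⁻¹ * g) * v = v * (t⁻¹ * g)) ∨
        ∀ v ∈ V, ((t * t)⁻¹ * g) * v = v * ((t * t)⁻¹ * g)) :
    ∀ c : G, (∀ v ∈ V, c * v = v * c) → c ∈ V := by
  have hcomm := cfa_comm V hexp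
  -- the centraliser is normal
  have hCn : ∀ c : G, (∀ v ∈ V, c * v = v * c) → ∀ g : G, ∀ v ∈ V,
      (g * c * g⁻¹ * c⁻¹) * v = v * (g * c * g⁻¹ * c⁻¹) := by
    intro c hc g v hv
    have h1 := hc v hv
    have h2 := hc (g⁻¹ * v * g) (by
      have h := hN.conj_mem v hv g⁻¹
      rwa [inv_inv] at h)
    have h4 : c⁻¹ * v = v * c⁻¹ := by
      rw [inv_mul_eq_iff_eq_mul, ← mul_assoc, h1, mul_assoc, mul_inv_cancel, mul_one]
    have h5 : (g * c * g⁻¹) * v = v * (g * c * g⁻¹) := by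
      calc (g * c * g⁻¹) * v = g * (c * (g⁻¹ * v * g)) * g⁻¹ := by group
        _ = g * ((g⁻¹ * v * g) * c) * g⁻¹ := by rw [h2]
        _ = v * (g * c * g⁻¹) := by group
    calc (g * c * g⁻¹ * c⁻¹) * v = (g * c * g⁻¹) * (c⁻¹ * v) := by group
      _ = (g * c * g⁻¹) * v * c⁻¹ := by rw [h4]; group
      _ = v * (g * c * g⁻¹ * c⁻¹) := by rw [h5]; group
  by_contra hne
  push Not at hne
  obtain ⟨c₀, hc₀, hc₀V⟩ := hne
  obtain ⟨c, ⟨hcC, hcV⟩, hc2⟩ := hmn {x | (∀ v ∈ V, x * v = v * x) ∧ x ∉ V} ⟨c₀, hc₀, hc₀V⟩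
    (fun x hx => hx.2)
  have hcg : ∀ g : G, g * c * g⁻¹ * c⁻¹ ∈ V := by
    intro g
    by_contra h
    exact hc2 g ⟨hCn c hcC g, h⟩
  obtain ⟨v, hv, hvu⟩ := cfa_sur V t ht (t * c * t⁻¹ * c⁻¹) (hcg t)
  -- the element `v * c` commutes with `t`
  have hct : (v * c) * t = t * (v * c) := by
    have h1 : v * t * v⁻¹ * t⁻¹ * (c * t * c⁻¹ * t⁻¹) = 1 := by
      rw [hvu]
      group
    have h2 : c * t * c⁻¹ * t⁻¹ ∈ V := by
      have h := V.inv_mem (hcg t)
      have h' : (t * c * t⁻¹ * c⁻¹)⁻¹ = c * t * c⁻¹ * t⁻¹ := by group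
      rwa [h'] at h
    have h3 : v * (c * t * c⁻¹ * t⁻¹) = (c * t * c⁻¹ * t⁻¹) * v := hcomm v hv _ h2
    have h4 : t * v⁻¹ * t⁻¹ ∈ V := hN.conj_mem _ (V.inv_mem hv) t
    have h5 : (t * v⁻¹ * t⁻¹) * (c * t * c⁻¹ * t⁻¹) = (c * t * c⁻¹ * t⁻¹) * (t * v⁻¹ * t⁻¹) :=
      hcomm _ h4 _ h2
    have h6 : v * (c * t * c⁻¹ * t⁻¹) * (t * v⁻¹ * t⁻¹) = 1 := by
      rw [mul_assoc, ← h5, ← h1]
      group
    have h7 : v * (c * t * c⁻¹ * t⁻¹) * (t * v⁻¹ * t⁻¹) = (v * c) * t * (t * (v * c))⁻¹ := by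
      group
    rw [h7, mul_inv_eq_one] at h6
    exact h6
  have hcC' : ∀ x ∈ V, (v * c) * x = x * (v * c) := by
    intro x hx
    rw [mul_assoc, hcC x hx, ← mul_assoc, hcomm v hv x hx, mul_assoc]
  have hcg' : ∀ g : G, g * (v * c) * g⁻¹ * (v * c)⁻¹ ∈ V := by
    intro g
    have h1 : g * (v * c) * g⁻¹ * (v * c)⁻¹ = (g * v * g⁻¹) * (g * c * g⁻¹ * c⁻¹) * v⁻¹ := by
      group
    rw [h1]
    exact V.mul_mem (V.mul_mem (hN.conj_mem v hv g) (hcg g)) (V.inv_mem hv)
  have hcV' : v * c ∉ V := by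
    intro h
    apply hcV
    have h1 := V.mul_mem (V.inv_mem hv) h
    rwa [inv_mul_cancel_left] at h1
  generalize v * c = c' at hct hcC' hcg' hcV'
  -- `c'` commutes with the centraliser
  have hcc : ∀ x : G, (∀ v ∈ V, x * v = v * x) → c' * x = x * c' := by
    by_contra hne
    push Not at hne
    obtain ⟨x₀, hx₀, hx₀c⟩ := hne
    obtain ⟨x, ⟨hxC, hxc⟩, hx2⟩ := hmn {x | (∀ v ∈ V, x * v = v * x) ∧ c' * x ≠ x * c'}
      ⟨x₀, hx₀, hx₀c⟩ (fun x hx hxV => hx.2 (hcC' x hxV))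
    have hy : c' * (t * x * t⁻¹ * x⁻¹) = (t * x * t⁻¹ * x⁻¹) * c' := by
      by_contra h
      exact hx2 t ⟨hCn x hxC t, h⟩
    have hyC := hCn x hxC t
    have hδ : c' * x * c'⁻¹ * x⁻¹ ∈ V := by
      have h := V.inv_mem (hcg' x)
      have h' : (x * c' * x⁻¹ * c'⁻¹)⁻¹ = c' * x * c'⁻¹ * x⁻¹ := by group
      rwa [h'] at h
    have h1 : t * (c' * x * c'⁻¹ * x⁻¹) * t⁻¹ = c' * x * c'⁻¹ * x⁻¹ := by
      have hct' : t * c' * t⁻¹ = c' := by rw [← hct]; group
      have e1 : t * (c' * x * c'⁻¹ * x⁻¹) * t⁻¹ =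
          (t * c' * t⁻¹) * (t * x * t⁻¹) * (t * c' * t⁻¹)⁻¹ * (t * x * t⁻¹)⁻¹ := by group
      have e2 : t * x * t⁻¹ = (t * x * t⁻¹ * x⁻¹) * x := by group
      rw [e1, hct', e2]
      generalize t * x * t⁻¹ * x⁻¹ = y at hy hyC
      calc c' * (y * x) * c'⁻¹ * (y * x)⁻¹ = (c' * y) * x * c'⁻¹ * x⁻¹ * y⁻¹ := by group
        _ = y * (c' * x * c'⁻¹ * x⁻¹) * y⁻¹ := by rw [hy]; group
        _ = c' * x * c'⁻¹ * x⁻¹ := by
          rw [hyC _ hδ]
          group
    have h2 := ht _ hδ h1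
    rw [mul_inv_eq_one, mul_inv_eq_iff_eq_mul] at h2
    exact hxc h2
  apply hcV'
  have h1 : c' = 1 := by
    apply hZ
    intro g
    rcases h3 g with h | h | h
    · exact (hcc g h).symm
    · have h4 := hcc _ h
      calc g * c' = t * ((t⁻¹ * g) * c') := by group
        _ = t * (c' * (t⁻¹ * g)) := by rw [h4]
        _ = (t * c') * t⁻¹ * g := by group
        _ = (c' * t) * t⁻¹ * g := by rw [hct]
        _ = c' * g := by group
    · have h4 := hcc _ h
      calc g * c' = t * t * (((t * t)⁻¹ * g) * c') := by group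
        _ = t * t * (c' * ((t * t)⁻¹ * g)) := by rw [h4]
        _ = t * (t * c') * (t * t)⁻¹ * g := by group
        _ = t * (c' * t) * (t * t)⁻¹ * g := by rw [hct]
        _ = (t * c') * t * (t * t)⁻¹ * g := by group
        _ = (c' * t) * t * (t * t)⁻¹ * g := by rw [hct]
        _ = c' * g := by group
  rw [h1]
  exact V.one_mem

/-- `G` is a subgroup of `A_4` -/
theorem cfa_emb [Finite G] (V : Subgroup G) [hN : V.Normal] (hV : Nat.card V = 4)
    (hexp : ∀ x ∈ V, x * x = 1) (t : G) (ht : ∀ v ∈ V, t * v * t⁻¹ = v → v = 1)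
    (htt : ∀ v ∈ V, (t * t * t) * v = v * (t * t * t))
    (h3 : ∀ g : G, (∀ v ∈ V, g * v = v * g) ∨ (∀ v ∈ V, (t⁻¹ * g) * v = v * (t⁻¹ * g)) ∨
        ∀ v ∈ V, ((t * t)⁻¹ * g) * v = v * ((t * t)⁻¹ * g))
    (hcen : ∀ c : G, (∀ v ∈ V, c * v = v * c) → c ∈ V) :
    ∃ f : G →* alternatingGroup (Fin 4), Function.Injective f := by
  classical
  have hcomm := cfa_comm V hexp
  have ht3 : t * t * t = 1 := by
    apply ht _ (hcen _ htt)
    group
  let S : Subgroup G := Subgroup.zpowers t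
  have htS : t ∈ S := Subgroup.mem_zpowers t
  have hSV : ∀ s ∈ S, s ∈ V → s = 1 := by
    intro s hs hsV
    obtain ⟨k, rfl⟩ := Subgroup.mem_zpowers_iff.1 hs
    apply ht _ hsV
    group
  -- the cosets of `S`
  let q : V → G ⧸ S := fun v => QuotientGroup.mk v.1
  have hq1 : Function.Injective q := by
    rintro ⟨v, hv⟩ ⟨w, hw⟩ h
    have h1 : (QuotientGroup.mk v : G ⧸ S) = QuotientGroup.mk w := h
    rw [QuotientGroup.eq] at h1
    have h2 := hSV _ h1 (V.mul_mem (V.inv_mem hv) hw)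
    apply Subtype.ext
    rw [inv_mul_eq_one] at h2
    exact h2
  have hq2 : Function.Surjective q := by
    intro x
    obtain ⟨g, rfl⟩ := QuotientGroup.mk_surjective x
    rcases h3 g with h | h | h
    · exact ⟨⟨g, hcen g h⟩, rfl⟩
    · refine ⟨⟨t * (t⁻¹ * g) * t⁻¹, hN.conj_mem _ (hcen _ h) t⟩, ?_⟩
      change (QuotientGroup.mk (t * (t⁻¹ * g) * t⁻¹) : G ⧸ S) = QuotientGroup.mk g
      rw [QuotientGroup.eq]
      have h1 : (t * (t⁻¹ * g) * t⁻¹)⁻¹ * g = t := by group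
      rw [h1]
      exact htS
    · refine ⟨⟨(t * t) * ((t * t)⁻¹ * g) * (t * t)⁻¹, hN.conj_mem _ (hcen _ h) (t * t)⟩, ?_⟩
      change (QuotientGroup.mk ((t * t) * ((t * t)⁻¹ * g) * (t * t)⁻¹) : G ⧸ S) = QuotientGroup.mk g
      rw [QuotientGroup.eq]
      have h1 : ((t * t) * ((t * t)⁻¹ * g) * (t * t)⁻¹)⁻¹ * g = t * t := by
        group
        exact zpow_two t
      rw [h1]
      exact S.mul_mem htS htS
  have e1 : V ≃ G ⧸ S := Equiv.ofBijective q ⟨hq1, hq2⟩
  have e2 : G ⧸ S ≃ Fin 4 := by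
    have := Fintype.ofFinite (G ⧸ S)
    exact Fintype.equivOfCardEq (by
      rw [← Nat.card_eq_fintype_card (α := G ⧸ S), ← Nat.card_congr e1, hV, Fintype.card_fin])
  let F : G →* Equiv.Perm (Fin 4) :=
    (e2.permCongrHom : Equiv.Perm (G ⧸ S) ≃* Equiv.Perm (Fin 4)).toMonoidHom.comp
      (MulAction.toPermHom G (G ⧸ S))
  have hF : Function.Injective F := by
    rw [injective_iff_map_eq_one]
    intro x hx
    have h1 : MulAction.toPermHom G (G ⧸ S) x = 1 := by
      apply (e2.permCongrHom : Equiv.Perm (G ⧸ S) ≃* Equiv.Perm (Fin 4)).injective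
      rw [map_one]
      exact hx
    have h2 : x ∈ S.normalCore := by
      rw [Subgroup.normalCore_eq_ker]
      exact h1
    have h4 : x ∈ S := S.normalCore_le h2
    have h5 : ∀ v ∈ V, x * v = v * x := by
      intro v hv
      have h6 : v * x * v⁻¹ ∈ S.normalCore := (Subgroup.normalCore_normal S).conj_mem x h2 v
      have h7 : v * x * v⁻¹ * x⁻¹ ∈ S :=
        S.mul_mem (S.normalCore_le h6) (S.inv_mem h4)
      have h8 : v * x * v⁻¹ * x⁻¹ ∈ V := by
        have h9 : v * x * v⁻¹ * x⁻¹ = v * (x * v⁻¹ * x⁻¹) := by group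
        rw [h9]
        exact V.mul_mem hv (hN.conj_mem _ (V.inv_mem hv) x)
      have h9 := hSV _ h7 h8
      rw [mul_inv_eq_one, mul_inv_eq_iff_eq_mul] at h9
      exact h9.symm
    exact hSV x h4 (hcen x h5)
  have hsg : ∀ x : G, Equiv.Perm.sign (F x) = 1 := by
    let s : G →* ℤˣ := Equiv.Perm.sign.comp F
    have hst : s t = 1 := by
      have h1 : s t * s t * s t = 1 := by
        rw [← map_mul, ← map_mul, ht3, map_one]
      rw [Int.units_mul_self, one_mul] at h1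
      exact h1
    have hsv : ∀ v ∈ V, s v = 1 := by
      intro v hv
      obtain ⟨w, hw, h⟩ := cfa_sur V t ht v hv
      rw [← h, map_mul, map_mul, map_mul, map_inv, map_inv, hst, mul_one, inv_one, mul_one,
        mul_inv_cancel]
    intro x
    change s x = 1
    rcases h3 x with h | h | h
    · exact hsv x (hcen x h)
    · have h1 := hsv _ (hcen _ h)
      rwa [map_mul, map_inv, hst, inv_one, one_mul] at h1
    · have h1 := hsv _ (hcen _ h)
      rwa [map_mul, map_inv, map_mul, hst, one_mul, inv_one, one_mul] at h1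
  refine ⟨F.codRestrict (alternatingGroup (Fin 4)) fun x => Equiv.Perm.mem_alternatingGroup.2 (hsg x),
    fun x y h => hF (congrArg Subtype.val h)⟩

/-- a group in `CF` with trivial centre is a subgroup of `A_4` -/
theorem cfa_triv [Finite G] (h : CF G) (hZ : ∀ z : G, (∀ g, g * z = z * g) → z = 1) :
    ∃ f : G →* alternatingGroup (Fin 4), Function.Injective f := by
  have hs : Subsingleton G → ∃ f : G →* alternatingGroup (Fin 4), Function.Injective f :=
    fun h => ⟨1, fun a b _ => h.elim a b⟩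
  rcases cfa_series h hZ with h1 | ⟨V, hN, hV, hmn⟩
  · exact hs h1
  rcases cfa_four V hV hmn hZ with h1 | h4
  · exact hs h1
  have hexp := cfa_exp V h4 hZ
  obtain ⟨t, ht, htt, h3⟩ := cfa_t V h4 hmn hZ hexp
  exact cfa_emb V h4 hexp t ht htt h3 (cfa_cen V hmn hZ hexp t ht h3)

theorem cfa (m : ℕ) : ∀ (G : Type) [Group G] [Finite G], Nat.card G ≤ m → CF G →
    ∃ (f : G →* alternatingGroup (Fin 4)) (k : ℕ), f.ker ≤ Subgroup.upperCentralSeries G k := by
  induction m with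
  | zero =>
    intro G _ _ hm _
    exact absurd (Nat.card_pos (α := G)) (by omega)
  | succ m ih =>
    intro G _ _ hm h
    by_cases hc : Subgroup.center G = ⊥
    · obtain ⟨f, hf⟩ := cfa_triv h fun z hz => by
        have h1 : z ∈ Subgroup.center G := Subgroup.mem_center_iff.2 hz
        rw [hc, Subgroup.mem_bot] at h1
        exact h1
      refine ⟨f, 0, ?_⟩
      rw [(MonoidHom.ker_eq_bot_iff f).2 hf]
      exact bot_le
    · have h1 : Nat.card (G ⧸ Subgroup.center G) ≤ m := by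
        have h2 := Subgroup.card_eq_card_quotient_mul_card_subgroup (Subgroup.center G)
        have h3 : 1 < Nat.card (Subgroup.center G) := (Subgroup.one_lt_card_iff_ne_bot _).2 hc
        have h4 : 0 < Nat.card (G ⧸ Subgroup.center G) := Nat.card_pos
        nlinarith
      obtain ⟨f, k, hf⟩ := ih (G ⧸ Subgroup.center G) h1 (cf_quot h (Subgroup.center G))
      refine ⟨f.comp (QuotientGroup.mk' (Subgroup.center G)), k.succ, ?_⟩
      rw [← Subgroup.comap_upperCentralSeries_quotient_center, ← MonoidHom.comap_ker]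
      exact Subgroup.comap_mono hf

end H51.TC
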