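import Pool.Agent.H51.TC.Fib

/-!
# TC-CNT: the number of homomorphisms with given `E`, `A`, `g`, `β` and `b` (as `ucnt_nr`, `ucnt` in H63/BU/UCnt.lean)
-/

set_option autoImplicit false

open scoped NumberField
open IsDedekindDomain
open scoped Classical

noncomputable section

namespace H51.TC

open H63.MA H38.BB H38.BG H38.AS H63.BU

variable {K : Type} [Field K] [NumberField K] {Ω : Type} [Field Ω] [Algebra K Ω] [IsAlgClosure K Ω]
  {p : ℕ} {ζ : K} {m u w N : ℕ} {G : Type} [Group G]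

/-- the norm factor of the untyped primes -/
def QA {K : Type} [Field K] [NumberField K] (a : ℕ) (A E : Finset (Pl K)) : ℝ :=
  (∏ v ∈ A, (nm v : ℝ) ^ (a + 1)) * ∏ v ∈ E \ A, (nm v : ℝ) ^ a

theorem nm_pos {K : Type} [Field K] [NumberField K] (v : Pl K) : (0 : ℝ) < (nm v : ℝ) := by
  exact_mod_cast (zero_lt_one.trans (one_lt_nm v))

theorem QA_pos {K : Type} [Field K] [NumberField K] (a : ℕ) (A E : Finset (Pl K)) :
    0 < QA a A E :=
  mul_pos (Finset.prod_pos fun v _ => pow_pos (nm_pos v) _)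
    (Finset.prod_pos fun v _ => pow_pos (nm_pos v) _)

theorem ua_eq {K : Type} [Field K] [NumberField K] (B : ℝ) (hB : 0 ≤ B) (a : ℕ) (ha : 0 < a)
    (A E : Finset (Pl K)) : UA B a A E = (B / QA a A E) ^ (1 / (a : ℝ)) := by
  have haR : (0 : ℝ) < (a : ℝ) := by exact_mod_cast ha
  have h1 : ∏ v ∈ A, (nm v : ℝ) ^ (-(((a + 1 : ℕ) : ℝ) / (a : ℝ))) =
      (∏ v ∈ A, (nm v : ℝ) ^ (a + 1)) ^ (-(1 / (a : ℝ))) := by
    rw [← Real.finsetProd_rpow A _ (fun v _ => by have := nm_pos v; positivity)]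
    refine Finset.prod_congr rfl fun v _ => ?_
    rw [← Real.rpow_natCast, ← Real.rpow_mul (nm_pos v).le]
    congr 1
    field_simp
  have h2 : ∏ v ∈ E \ A, (nm v : ℝ) ^ (-1 : ℝ) =
      (∏ v ∈ E \ A, (nm v : ℝ) ^ a) ^ (-(1 / (a : ℝ))) := by
    rw [← Real.finsetProd_rpow (E \ A) _ (fun v _ => by have := nm_pos v; positivity)]
    refine Finset.prod_congr rfl fun v _ => ?_
    rw [← Real.rpow_natCast, ← Real.rpow_mul (nm_pos v).le]
    congr 1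
    field_simp
  have h3 : 0 < ∏ v ∈ A, (nm v : ℝ) ^ (a + 1) :=
    Finset.prod_pos fun v _ => pow_pos (nm_pos v) _
  have h4 : 0 < ∏ v ∈ E \ A, (nm v : ℝ) ^ a := Finset.prod_pos fun v _ => pow_pos (nm_pos v) _
  unfold UA
  rw [h1, h2, ← Real.mul_rpow h3.le h4.le]
  show B ^ (1 / (a : ℝ)) * (QA a A E) ^ (-(1 / (a : ℝ))) = _
  rw [Real.div_rpow hB (QA_pos a A E).le, Real.rpow_neg (QA_pos a A E).le]
  rfl

theorem cnr (hp : p.Prime) (hζ : IsPrimitiveRoot ζ p) (D : RD0 K p ζ) (L : LDs D Ω)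
    [Finite G] (Dg : GT p m u w N G)
    (hS : ∀ v : Pl K, ((Nat.card G : ℕ) : 𝓞 K) ∈ v.asIdeal → v ∈ D.S0) (a : ℕ) (ha : 0 < a)
    (ix : Subgroup G → ℕ) (h1 : ∀ H, H ≠ ⊥ → a ≤ ix H)
    (h2 : ∀ g : G, g ≠ 1 → ix (Subgroup.zpowers g) ≤ a → ∃ i, IsConj g (Dg.g i))
    (φ : Gal(Ω/K) →* G) (hφ : H38.ML.FT φ) (B : ℝ)
    (hB : ∀ T : Finset (Pl K), (∀ v ∈ T, v ∉ D.S0) →
      ∏ v ∈ T, (nm v : ℝ) ^ ix ((inr L v).map φ) ≤ B)
    (f : Fin N → Finset (Pl K)) (A E : Finset (Pl K)) (hf : ∀ i v, v ∈ f i ↔ Ty Dg L φ i v)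
    (hE : ∀ v, v ∈ E ↔ Rm L φ v ∧ ∀ i, ¬ Ty Dg L φ i v)
    (hA : ∀ v, v ∈ A ↔ Rm L φ v ∧ ∀ i, ¬ Ti Dg L φ i v) :
    ∏ i, nr (f i) ≤ UA B a A E ∧ Dj f ∧ (∀ i, Disjoint (f i) E) ∧ 1 ≤ UA B a A E ∧
      (∀ i, f i ∈ GF D (UA B a A E)) ∧ A ∈ Aw E := by
  have h0 : ∀ v : Pl K, (1 : ℝ) ≤ (nm v : ℝ) := fun v => by
    exact_mod_cast (one_lt_nm v).le
  have haR : (0 : ℝ) < (a : ℝ) := by exact_mod_cast ha
  have hdj : Dj f := by
    intro i j hij
    rw [Finset.disjoint_left]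
    intro v hv hv'
    exact hij (ulead_uni L Dg φ i j v ((hf i v).1 hv) ((hf j v).1 hv'))
  have hdE : ∀ i, Disjoint (f i) E := by
    intro i
    rw [Finset.disjoint_left]
    intro v hv hv'
    exact ((hE v).1 hv').2 i ((hf i v).1 hv)
  have hAE : A ⊆ E := by
    intro v hv
    obtain ⟨h3, h4⟩ := (hA v).1 hv
    exact (hE v).2 ⟨h3, fun i hi => h4 i ((ti_ty L Dg φ i v).1 hi).1⟩
  have hAw : A ∈ Aw E := by
    refine Finset.mem_filter.2 ⟨Finset.mem_powerset.2 hAE, fun v hv hpr => ?_⟩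
    obtain ⟨h3, h4⟩ := Finset.mem_sdiff.1 hv
    obtain ⟨h5, h6⟩ := (hE v).1 h3
    apply h4
    exact (hA v).2 ⟨h5, fun i hi => h6 i ((ti_ty L Dg φ i v).2 ⟨hi, hpr⟩)⟩
  have hEi : Disjoint E (Finset.univ.biUnion f) := by
    rw [Finset.disjoint_biUnion_right]
    exact fun i _ => (hdE i).symm
  have hT : ∀ v ∈ E ∪ Finset.univ.biUnion f, v ∉ D.S0 := by
    intro v hv
    rcases Finset.mem_union.1 hv with h | h
    · exact ((hE v).1 h).1.1
    · obtain ⟨i, -, hi⟩ := Finset.mem_biUnion.1 h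
      exact ((hf i v).1 hi).1.1
  have hprod := hB _ hT
  rw [Finset.prod_union hEi, Finset.prod_biUnion (fun i _ j _ hij => hdj i j hij)] at hprod
  have hne : ∀ v, Rm L φ v → (inr L v).map φ ≠ ⊥ := by
    rintro v ⟨-, τ, hτ, hτ1⟩ h
    have h3 : φ τ ∈ (inr L v).map φ := Subgroup.mem_map_of_mem φ hτ
    rw [h] at h3
    exact hτ1 (Subgroup.mem_bot.1 h3)
  have hQ1 : QA a A E ≤ ∏ v ∈ E, (nm v : ℝ) ^ ix ((inr L v).map φ) := by
    rw [← Finset.prod_sdiff hAE, mul_comm]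
    unfold QA
    refine mul_le_mul ?_ ?_ (Finset.prod_nonneg fun v _ => by have := h0 v; positivity)
      (Finset.prod_nonneg fun v _ => by have := h0 v; positivity)
    · refine Finset.prod_le_prod (fun v _ => by have := h0 v; positivity) fun v hv => ?_
      obtain ⟨h3, h4⟩ := (hA v).1 hv
      rcases led hp hζ L Dg hS a ix h2 φ hφ v h3 with ⟨i, hi⟩ | h
      · exact absurd hi (h4 i)
      · exact pow_le_pow_right₀ (h0 v) h
    · refine Finset.prod_le_prod (fun v _ => by have := h0 v; positivity) fun v hv => ?_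
      exact pow_le_pow_right₀ (h0 v)
        (h1 _ (hne v ((hE v).1 (Finset.mem_sdiff.1 hv).1).1))
  have hP1 : (∏ i, nr (f i)) ^ a ≤ ∏ i, ∏ v ∈ f i, (nm v : ℝ) ^ ix ((inr L v).map φ) := by
    rw [← Finset.prod_pow]
    refine Finset.prod_le_prod (fun i _ => pow_nonneg (by linarith [one_le_nr (f i)]) _)
      fun i _ => ?_
    unfold nr
    rw [← Finset.prod_pow]
    refine Finset.prod_le_prod (fun v _ => by have := h0 v; positivity) fun v hv => ?_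
    exact pow_le_pow_right₀ (h0 v) (h1 _ (ulead_ty L Dg φ i v ((hf i v).1 hv)).2)
  obtain ⟨P, hP⟩ : ∃ P : ℝ, P = ∏ i, nr (f i) := ⟨_, rfl⟩
  have hPone : 1 ≤ P := by
    rw [hP]
    exact atupa_prod_one f Finset.univ
  have hQ0 := QA_pos a A E
  have hQP : QA a A E * P ^ a ≤ B := by
    refine le_trans ?_ hprod
    rw [hP]
    refine mul_le_mul hQ1 hP1 (by rw [← hP]; positivity) ?_
    exact Finset.prod_nonneg fun v _ => by have := h0 v; positivity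
  have hB0 : 0 < B := lt_of_lt_of_le (by positivity) hQP
  have hUA : UA B a A E = (B / QA a A E) ^ (1 / (a : ℝ)) := ua_eq B hB0.le a ha A E
  have hPU : P ≤ UA B a A E := by
    rw [hUA]
    have h3 : P ^ a ≤ B / QA a A E := by
      rw [le_div_iff₀ hQ0]
      linarith
    have h4 : P = (P ^ a) ^ (1 / (a : ℝ)) := by
      rw [one_div, Real.pow_rpow_inv_natCast (by linarith) ha.ne']
    rw [h4]
    exact Real.rpow_le_rpow (by positivity) h3 (by positivity)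
  refine ⟨?_, hdj, hdE, hPone.trans hPU, fun i => ?_, hAw⟩
  · rw [← hP]
    exact hPU
  · rw [atupa_mem_GF]
    refine ⟨?_, fun v hv => ((hf i v).1 hv).1⟩
    refine le_trans (atupa_le_prod f i) ?_
    rw [← hP]
    exact hPU

theorem cnt (hp : p.Prime) (hζ : IsPrimitiveRoot ζ p) (D : RD0 K p ζ) (L : LDs D Ω)
    [Finite G] (Dg : GT p m u w N G) (z : K)
    (hz : IsPrimitiveRoot z (Nat.card G))
    (hS : ∀ v : Pl K, ((Nat.card G : ℕ) : 𝓞 K) ∈ v.asIdeal → v ∈ D.S0) (a : ℕ) (ha : 0 < a)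
    (ix : Subgroup G → ℕ) (h1 : ∀ H, H ≠ ⊥ → a ≤ ix H)
    (h2 : ∀ g : G, g ≠ 1 → ix (Subgroup.zpowers g) ≤ a → ∃ i, IsConj g (Dg.g i)) :
    ∃ C : ℕ, ∀ (B : ℝ) (A E : Finset (Pl K)) (g : Fin N → Finset (Pl K))
      (β : Gal(Ω/K) →* G ⧸ WS Dg) (b : Fin m → Kˣ) (Rs : Finset (Gal(Ω/K) →* G)),
      (∀ φ ∈ Rs, H38.ML.FT φ ∧ (∀ T : Finset (Pl K), (∀ v ∈ T, v ∉ D.S0) →
          ∏ v ∈ T, (nm v : ℝ) ^ ix ((inr L v).map φ) ≤ B) ∧
        (∀ v, v ∈ E ↔ Rm L φ v ∧ ∀ i, ¬ Ty Dg L φ i v) ∧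
        (∀ v, v ∈ A ↔ Rm L φ v ∧ ∀ i, ¬ Ti Dg L φ i v) ∧
        ∀ f : Fin N → Finset (Pl K), (∀ i v, v ∈ f i ↔ Ty Dg L φ i v) →
          (∀ σ, mkW Dg (φ σ) = β σ * vqW Dg (eta D Dg (fun i => f i ∪ g i) σ)) ∧
          SpR Dg.cr b f ∧ wtR Dg.cr f (fun v k => D.LL v (akR D Dg.cr b f k)) =
            ∏ i, (Nat.card {h : G // IsConj h (Dg.g i)} : ℝ) ^ (f i).card) →
      (Rs.card : ℝ) ≤ C * (Nat.card G : ℝ) ^ E.card *
        SW D Dg.cr b E (fun _ => 1) (UA B a A E) := by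
  obtain ⟨C, hC⟩ := fib hp hζ D L Dg z hz hS
  refine ⟨C, fun B A E g β b Rs hRs => ?_⟩
  -- the families
  obtain ⟨fam, hfam⟩ : ∃ fam : (Gal(Ω/K) →* G) → Fin N → Finset (Pl K),
      ∀ φ ∈ Rs, ∀ i v, v ∈ fam φ i ↔ Ty Dg L φ i v := by
    have hfin : ∀ φ ∈ Rs, ∀ i, {v : Pl K | Ty Dg L φ i v}.Finite := by
      intro φ hφ i
      refine (uinr_fin L φ (hRs φ hφ).1).subset ?_
      intro v hv
      exact (ulead_ty L Dg φ i v hv).1
    refine ⟨fun φ i => if h : {v : Pl K | Ty Dg L φ i v}.Finite then h.toFinset else ∅,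
      fun φ hφ i v => ?_⟩
    dsimp only
    rw [dif_pos (hfin φ hφ i), Set.Finite.mem_toFinset]
    rfl
  obtain ⟨Z, hZ⟩ : ∃ Z : (Fin N → Finset (Pl K)) → ℝ, Z = fun f =>
      if Dj f ∧ (∀ i, Disjoint (f i) E) ∧ ∏ i, nr (f i) ≤ UA B a A E ∧ SpR Dg.cr b f then
      (fun _ => (1 : ℝ)) (fun i => qf D (f i)) *
        wtR Dg.cr f (fun v k => D.LL v (akR D Dg.cr b f k)) else 0 := ⟨_, rfl⟩
  have hZ0 : ∀ f, 0 ≤ Z f := by
    intro f
    rw [hZ]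
    dsimp only
    split_ifs
    · rw [one_mul]
      exact ucnt_wt0 _ _ _
    · exact le_rfl
  have hSW : SW D Dg.cr b E (fun _ => 1) (UA B a A E) =
      ∑ f ∈ Fintype.piFinset (fun _ : Fin N => GF D (UA B a A E)), Z f := by
    rw [hZ]
    rfl
  have hmap : ∀ φ ∈ Rs, fam φ ∈ Fintype.piFinset (fun _ : Fin N => GF D (UA B a A E)) := by
    intro φ hφ
    obtain ⟨r1, r2, r3, r4, r5⟩ := hRs φ hφ
    obtain ⟨-, -, -, -, h6, -⟩ := cnr hp hζ D L Dg hS a ha ix h1 h2 φ r1 B r2 (fam φ) A E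
      (hfam φ hφ) r3 r4
    exact Fintype.mem_piFinset.2 h6
  have hfib : ∀ f ∈ Fintype.piFinset (fun _ : Fin N => GF D (UA B a A E)),
      ((Rs.filter fun φ => fam φ = f).card : ℝ) ≤ C * (Nat.card G : ℝ) ^ E.card * Z f := by
    intro f _
    by_cases hemp : (Rs.filter fun φ => fam φ = f) = ∅
    · rw [hemp, Finset.card_empty, Nat.cast_zero]
      have := hZ0 f
      positivity
    · obtain ⟨φ, hφ⟩ := Finset.nonempty_iff_ne_empty.2 hemp
      rw [Finset.mem_filter] at hφ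
      obtain ⟨hφ, hff⟩ := hφ
      obtain ⟨r1, r2, r3, r4, r5⟩ := hRs φ hφ
      have hff' : ∀ i v, v ∈ f i ↔ Ty Dg L φ i v := by
        rw [← hff]
        exact hfam φ hφ
      obtain ⟨g1, g2, g3, -, -, -⟩ := cnr hp hζ D L Dg hS a ha ix h1 h2 φ r1 B r2 f A E
        hff' r3 r4
      obtain ⟨-, s1, s2⟩ := r5 f hff'
      have hZf : Z f = ∏ i, (Nat.card {h : G // IsConj h (Dg.g i)} : ℝ) ^ (f i).card := by
        rw [hZ]
        dsimp only
        rw [if_pos ⟨g2, g3, g1, s1⟩, one_mul, s2]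
      rw [hZf]
      have hty : ∀ ψ ∈ Rs.filter fun φ => fam φ = f, ∀ i v, v ∈ f i ↔ Ty Dg L ψ i v := by
        intro ψ hψ
        have h6 := Finset.mem_filter.1 hψ
        rw [← h6.2]
        exact hfam ψ h6.1
      have hmk : ∀ ψ ∈ Rs.filter fun φ => fam φ = f, ∀ σ,
          mkW Dg (ψ σ) = β σ * vqW Dg (eta D Dg (fun i => f i ∪ g i) σ) := by
        intro ψ hψ
        exact ((hRs ψ (Finset.mem_filter.1 hψ).1).2.2.2.2 f (hty ψ hψ)).1
      have h5 := hC E f (Rs.filter fun φ => fam φ = f)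
        (fun ψ hψ => (hRs ψ (Finset.mem_filter.1 hψ).1).1) hty
        (fun ψ hψ => (hRs ψ (Finset.mem_filter.1 hψ).1).2.2.1)
        (fun ψ hψ ψ' hψ' σ => (hmk ψ hψ σ).trans (hmk ψ' hψ' σ).symm)
      exact_mod_cast h5
  rw [Finset.card_eq_sum_card_fiberwise (fun φ hφ => Finset.mem_coe.2 (hmap φ (Finset.mem_coe.1 hφ))),
    Nat.cast_sum, hSW, Finset.mul_sum]
  exact Finset.sum_le_sum hfib

end H51.TC
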