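import Pool.Agent.H51.TC.Def

/-!
# TC-DYA: summation of a function of bounded mean growth over the finite sets of primes

`dya`: if `∑_(R ∈ 𝓡) h R ≤ C Y^(1+ε)` for all finite `𝓡` of sets `R` with `nr R ≤ Y` and all `ε > 0`, then
`∑_(R ∈ 𝓡) h R q^(#R) nr(R)^(-1-δ)` is bounded for all `q ≥ 0`, `δ > 0`.
-/

set_option autoImplicit false

open scoped NumberField
open IsDedekindDomain
open scoped Classical

noncomputable section

namespace H51.TC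

open H63.MA H38.BB H38.BG H38.AS H63.BU

variable {K : Type} [Field K] [NumberField K]

theorem nm_fin (M : ℝ) : {v : Pl K | (nm v : ℝ) ≤ M}.Finite := by
  have h := (pz_summable K (s := 2) (by norm_num)).tendsto_cofinite_zero
  by_cases hM : M ≤ 0
  · refine Set.Finite.subset Set.finite_empty fun v hv => ?_
    have h1 : (1 : ℝ) < nm v := by exact_mod_cast one_lt_nm v
    have h2 : (nm v : ℝ) ≤ M := hv
    exact absurd h2 (by linarith)
  · push Not at hM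
    have h1 := h.eventually (gt_mem_nhds (show (0 : ℝ) < M ^ (-2 : ℝ) from Real.rpow_pos_of_pos hM _))
    rw [Filter.eventually_cofinite] at h1
    refine h1.subset fun v hv => ?_
    have h2 : (nm v : ℝ) ≤ M := hv
    have h3 : (0 : ℝ) < nm v := by
      have : (1 : ℝ) < nm v := by exact_mod_cast one_lt_nm v
      linarith
    show ¬ (nm v : ℝ) ^ (-2 : ℝ) < M ^ (-2 : ℝ)
    rw [not_lt]
    exact Real.rpow_le_rpow_of_nonpos h3 h2 (by norm_num)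

theorem nr_rpow (R : Finset (Pl K)) (s : ℝ) : nr R ^ s = ∏ v ∈ R, (nm v : ℝ) ^ s := by
  unfold nr
  rw [← Real.finsetProd_rpow _ _ (fun v _ => Nat.cast_nonneg _)]

/-- `q^(#R)` is smaller than every power of `nr R` -/
theorem pow_card_nr (q ε : ℝ) (hq : 0 ≤ q) (hε : 0 < ε) :
    ∃ C : ℝ, 0 < C ∧ ∀ R : Finset (Pl K), q ^ R.card ≤ C * nr R ^ ε := by
  set q' : ℝ := max q 1 with hq'
  have hq1 : 1 ≤ q' := le_max_right _ _
  have hfin := nm_fin (K := K) (q' ^ (1 / ε))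
  refine ⟨q' ^ hfin.toFinset.card, by positivity, fun R => ?_⟩
  have h0 : ∀ v : Pl K, (1 : ℝ) ≤ (nm v : ℝ) ^ ε := fun v =>
    Real.one_le_rpow (by exact_mod_cast (one_lt_nm v).le) hε.le
  have h1 : ∀ v : Pl K, q ≤ (if v ∈ hfin.toFinset then q' else 1) * (nm v : ℝ) ^ ε := by
    intro v
    by_cases hv : v ∈ hfin.toFinset
    · rw [if_pos hv]
      have := h0 v
      nlinarith [le_max_left q 1]
    · rw [if_neg hv, one_mul]
      rw [Set.Finite.mem_toFinset] at hv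
      have h2 : q' ^ (1 / ε) < (nm v : ℝ) := not_le.1 hv
      have h3 : q' ≤ (nm v : ℝ) ^ ε := by
        have h4 : (q' ^ (1 / ε)) ^ ε ≤ (nm v : ℝ) ^ ε :=
          Real.rpow_le_rpow (by positivity) h2.le hε.le
        rwa [← Real.rpow_mul (by linarith), one_div_mul_cancel hε.ne', Real.rpow_one] at h4
      exact (le_max_left _ _).trans h3
  have h5 : q ^ R.card ≤ ∏ v ∈ R, ((if v ∈ hfin.toFinset then q' else 1) * (nm v : ℝ) ^ ε) := by
    rw [← Finset.prod_const]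
    exact Finset.prod_le_prod (fun v _ => hq) fun v _ => h1 v
  rw [Finset.prod_mul_distrib, ← nr_rpow] at h5
  refine h5.trans (mul_le_mul_of_nonneg_right ?_ (by have := one_le_nr R; positivity))
  rw [Finset.prod_ite, Finset.prod_const, Finset.prod_const, one_pow, mul_one]
  refine pow_le_pow_right₀ hq1 (Finset.card_le_card ?_)
  intro v hv
  exact (Finset.mem_filter.1 hv).2

theorem dya (h : Finset (Pl K) → ℝ) (h0 : ∀ R, 0 ≤ h R)
    (H : ∀ ε : ℝ, 0 < ε → ∃ C : ℝ, ∀ Y : ℝ, 1 ≤ Y → ∀ Rs : Finset (Finset (Pl K)),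
      (∀ R ∈ Rs, nr R ≤ Y) → ∑ R ∈ Rs, h R ≤ C * Y ^ (1 + ε)) (q δ : ℝ) (hq : 0 ≤ q)
    (hδ : 0 < δ) :
    ∃ C : ℝ, ∀ Rs : Finset (Finset (Pl K)),
      ∑ R ∈ Rs, h R * (q ^ R.card * nr R ^ (-1 - δ)) ≤ C := by
  set ε : ℝ := δ / 4 with hε
  have hε0 : 0 < ε := by positivity
  obtain ⟨C₁, hC₁, h1⟩ := pow_card_nr (K := K) q ε hq hε0
  obtain ⟨C₂, h2⟩ := H ε hε0
  have hC₂ : 0 ≤ C₂ := by
    have := h2 1 le_rfl ∅ (by simp)
    rw [Finset.sum_empty, Real.one_rpow, mul_one] at this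
    exact this
  set r : ℝ := (2 : ℝ) ^ (-(δ / 2)) with hr
  have hr0 : 0 < r := Real.rpow_pos_of_pos (by norm_num) _
  have hr1 : r < 1 := Real.rpow_lt_one_of_one_lt_of_neg (by norm_num) (by linarith)
  have hr1' : 0 < 1 - r := by linarith
  refine ⟨C₁ * C₂ * 2 ^ (1 + ε) * (1 - r)⁻¹, fun Rs => ?_⟩
  set k : Finset (Pl K) → ℕ := fun R => Nat.log 2 ⌊nr R⌋₊ with hk
  have hklo : ∀ R, (2 : ℝ) ^ k R ≤ nr R := by
    intro R
    have h3 : 1 ≤ ⌊nr R⌋₊ := Nat.one_le_floor_iff (nr R) |>.2 (one_le_nr R)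
    have h4 : 2 ^ k R ≤ ⌊nr R⌋₊ := Nat.pow_log_le_self 2 (by omega)
    calc (2 : ℝ) ^ k R = ((2 ^ k R : ℕ) : ℝ) := by push_cast; rfl
      _ ≤ (⌊nr R⌋₊ : ℝ) := by exact_mod_cast h4
      _ ≤ nr R := Nat.floor_le (by linarith [one_le_nr R])
  have hkhi : ∀ R, nr R ≤ (2 : ℝ) ^ (k R + 1) := by
    intro R
    have h4 : ⌊nr R⌋₊ < 2 ^ (k R + 1) := Nat.lt_pow_succ_log_self (by norm_num) _
    have h5 : ⌊nr R⌋₊ + 1 ≤ 2 ^ (k R + 1) := h4
    calc nr R ≤ (⌊nr R⌋₊ : ℝ) + 1 := (Nat.lt_floor_add_one _).le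
      _ = ((⌊nr R⌋₊ + 1 : ℕ) : ℝ) := by push_cast; rfl
      _ ≤ ((2 ^ (k R + 1) : ℕ) : ℝ) := by exact_mod_cast h5
      _ = (2 : ℝ) ^ (k R + 1) := by push_cast; rfl
  have hterm : ∀ R, h R * (q ^ R.card * nr R ^ (-1 - δ)) ≤
      C₁ * ((2 : ℝ) ^ k R) ^ (-1 - δ + ε) * h R := by
    intro R
    have h3 : 0 < nr R := lt_of_lt_of_le one_pos (one_le_nr R)
    have h4 : q ^ R.card * nr R ^ (-1 - δ) ≤ C₁ * nr R ^ (-1 - δ + ε) := by
      calc q ^ R.card * nr R ^ (-1 - δ) ≤ C₁ * nr R ^ ε * nr R ^ (-1 - δ) :=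
            mul_le_mul_of_nonneg_right (h1 R) (Real.rpow_nonneg h3.le _)
        _ = C₁ * nr R ^ (-1 - δ + ε) := by
            rw [mul_assoc, ← Real.rpow_add h3]
            ring_nf
    have h5 : nr R ^ (-1 - δ + ε) ≤ ((2 : ℝ) ^ k R) ^ (-1 - δ + ε) :=
      Real.rpow_le_rpow_of_nonpos (by positivity) (hklo R) (by rw [hε]; linarith)
    calc h R * (q ^ R.card * nr R ^ (-1 - δ)) ≤ h R * (C₁ * nr R ^ (-1 - δ + ε)) :=
          mul_le_mul_of_nonneg_left h4 (h0 R)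
      _ ≤ h R * (C₁ * ((2 : ℝ) ^ k R) ^ (-1 - δ + ε)) :=
          mul_le_mul_of_nonneg_left (mul_le_mul_of_nonneg_left h5 hC₁.le) (h0 R)
      _ = _ := by ring
  have hlayer : ∀ j : ℕ, ∑ R ∈ Rs.filter (fun R => k R = j),
      C₁ * ((2 : ℝ) ^ k R) ^ (-1 - δ + ε) * h R ≤ C₁ * C₂ * 2 ^ (1 + ε) * r ^ j := by
    intro j
    have e1 : ∑ R ∈ Rs.filter (fun R => k R = j), C₁ * ((2 : ℝ) ^ k R) ^ (-1 - δ + ε) * h R =
        C₁ * ((2 : ℝ) ^ j) ^ (-1 - δ + ε) * ∑ R ∈ Rs.filter (fun R => k R = j), h R := by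
      rw [Finset.mul_sum]
      refine Finset.sum_congr rfl fun R hR => ?_
      rw [(Finset.mem_filter.1 hR).2]
    have h3 := h2 ((2 : ℝ) ^ (j + 1)) (one_le_pow₀ (by norm_num))
      (Rs.filter fun R => k R = j) (by
        intro R hR
        have := hkhi R
        rwa [(Finset.mem_filter.1 hR).2] at this)
    rw [e1]
    have e2 : ((2 : ℝ) ^ j) ^ (-1 - δ + ε) * ((2 : ℝ) ^ (j + 1)) ^ (1 + ε) = 2 ^ (1 + ε) * r ^ j := by
      rw [hr, ← Real.rpow_natCast, ← Real.rpow_natCast, ← Real.rpow_natCast,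
        ← Real.rpow_mul (by norm_num), ← Real.rpow_mul (by norm_num),
        ← Real.rpow_mul (by norm_num), ← Real.rpow_add (by norm_num),
        ← Real.rpow_add (by norm_num)]
      congr 1
      rw [hε]
      push_cast
      ring
    calc C₁ * ((2 : ℝ) ^ j) ^ (-1 - δ + ε) * ∑ R ∈ Rs.filter (fun R => k R = j), h R ≤
        C₁ * ((2 : ℝ) ^ j) ^ (-1 - δ + ε) * (C₂ * ((2 : ℝ) ^ (j + 1)) ^ (1 + ε)) :=
          mul_le_mul_of_nonneg_left h3 (by positivity)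
      _ = C₁ * C₂ * (((2 : ℝ) ^ j) ^ (-1 - δ + ε) * ((2 : ℝ) ^ (j + 1)) ^ (1 + ε)) := by ring
      _ = _ := by rw [e2]; ring
  calc ∑ R ∈ Rs, h R * (q ^ R.card * nr R ^ (-1 - δ)) ≤
      ∑ R ∈ Rs, C₁ * ((2 : ℝ) ^ k R) ^ (-1 - δ + ε) * h R :=
        Finset.sum_le_sum fun R _ => hterm R
    _ = ∑ j ∈ Rs.image k, ∑ R ∈ Rs.filter (fun R => k R = j),
        C₁ * ((2 : ℝ) ^ k R) ^ (-1 - δ + ε) * h R :=
        (Finset.sum_fiberwise_of_maps_to (fun R hR => Finset.mem_image_of_mem k hR) _).symm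
    _ ≤ ∑ j ∈ Rs.image k, C₁ * C₂ * 2 ^ (1 + ε) * r ^ j := Finset.sum_le_sum fun j _ => hlayer j
    _ = C₁ * C₂ * 2 ^ (1 + ε) * ∑ j ∈ Rs.image k, r ^ j := by rw [Finset.mul_sum]
    _ ≤ C₁ * C₂ * 2 ^ (1 + ε) * (1 - r)⁻¹ := by
        refine mul_le_mul_of_nonneg_left ?_ (by positivity)
        rw [← tsum_geometric_of_lt_one hr0.le hr1]
        exact (summable_geometric_of_lt_one hr0.le hr1).sum_le_tsum _ fun j _ => by positivity

end H51.TC
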