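import Pool.Agent.H51.TC.Bas

/-!
# TC-FIB: the number of homomorphisms with given ramified primes and given class modulo `W`

Proof of `ufib` (H63/BU/UFib.lean) with `ugsr` applied to the central subgroup `W` instead of `G`.
-/

set_option autoImplicit false

open scoped NumberField
open IsDedekindDomain
open scoped Classical

noncomputable section

namespace H51.TC

open H63.MA H38.BB H38.BG H38.AS H63.BU

variable {K : Type} [Field K] [NumberField K] {Ω : Type} [Field Ω] [Algebra K Ω] [IsAlgClosure K Ω]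
  {p : ℕ} {ζ : K} {m u w N : ℕ} {G : Type} [Group G]

theorem ws_cen (Dg : GT p m u w N G) : ∀ x ∈ WS Dg, ∀ h : G, x * h = h * x := by
  rintro _ ⟨a, rfl⟩ h
  exact (gt_cen Dg a h).symm ▸ rfl

theorem ws_nil (Dg : GT p m u w N G) : Group.IsNilpotent (WS Dg) := by
  haveI : Group.IsNilpotent Unit := CommGroup.isNilpotent
  refine isNilpotent_of_ker_le_center (1 : WS Dg →* Unit) ?_
  intro x _
  rw [Subgroup.mem_center_iff]
  intro g
  exact Subtype.ext (ws_cen Dg _ g.2 x)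

/-- agreement on the inertia groups and modulo `W`: boundedly many -/
theorem fib_ag [Finite G] (D : RD0 K p ζ) (L : LDs D Ω) (Dg : GT p m u w N G) (z : K)
    (hz : IsPrimitiveRoot z (Nat.card G))
    (hS : ∀ v : Pl K, ((Nat.card G : ℕ) : 𝓞 K) ∈ v.asIdeal → v ∈ D.S0) :
    ∃ C : ℕ, ∀ Rs : Finset (Gal(Ω/K) →* G), (∀ φ ∈ Rs, H38.ML.FT φ) →
      (∀ φ ∈ Rs, ∀ φ' ∈ Rs, ∀ σ, mkW Dg (φ σ) = mkW Dg (φ' σ)) →
      (∀ φ ∈ Rs, ∀ φ' ∈ Rs, ∀ v, v ∉ D.S0 → ∀ τ ∈ inr L v, φ τ = φ' τ) → Rs.card ≤ C := by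
  obtain ⟨C, hC⟩ := ugsr D L (Nat.card G) Nat.card_pos z hz hS (WS Dg) (ws_nil Dg)
    (Subgroup.card_subgroup_dvd_card _)
  refine ⟨C, fun Rs hft hmk hag => ?_⟩
  rcases Rs.eq_empty_or_nonempty with h0 | ⟨φ₀, hφ₀⟩
  · rw [h0, Finset.card_empty]
    exact Nat.zero_le _
  have hmem : ∀ φ : {φ // φ ∈ Rs}, ∀ σ, (φ₀ σ)⁻¹ * φ.1 σ ∈ WS Dg := by
    intro φ σ
    obtain ⟨a, ha⟩ := (mkW_eq Dg _ _).1 (hmk φ.1 φ.2 φ₀ hφ₀ σ)
    rw [ha, ← mul_assoc, ← ws_cen Dg (Dg.e a 0) ⟨a, rfl⟩ (φ₀ σ)⁻¹, inv_mul_cancel_right]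
    exact ⟨a, rfl⟩
  let X : {φ // φ ∈ Rs} → (Gal(Ω/K) →* WS Dg) :=
    fun φ => ugsr_chi (WS Dg) (ws_cen Dg) φ₀ φ.1 (hmem φ)
  have hXinj : Function.Injective X := by
    intro φ φ' h
    apply Subtype.ext
    apply MonoidHom.ext
    intro σ
    have h1 : ugsr_chi (WS Dg) (ws_cen Dg) φ₀ φ.1 (hmem φ) σ =
        ugsr_chi (WS Dg) (ws_cen Dg) φ₀ φ'.1 (hmem φ') σ := DFunLike.congr_fun h σ
    have h2 := congrArg Subtype.val h1
    rw [ugsr_chi_coe, ugsr_chi_coe] at h2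
    exact mul_left_cancel h2
  have h4 : ∀ (φ : {φ // φ ∈ Rs}) (v : Pl K), v ∉ D.S0 → ∀ τ ∈ inr L v, X φ τ = 1 := by
    intro φ v hv τ hτ
    apply Subtype.ext
    show ((ugsr_chi (WS Dg) (ws_cen Dg) φ₀ φ.1 (hmem φ) τ : WS Dg) : G) = 1
    rw [ugsr_chi_coe, hag φ₀ hφ₀ φ.1 φ.2 v hv τ hτ, inv_mul_cancel]
  have h3 := hC (Finset.univ.image X) (by
    intro χ hχ
    obtain ⟨φ, -, rfl⟩ := Finset.mem_image.mp hχ
    exact ugsr_chi_ft _ _ _ _ _ (hft _ hφ₀) (hft _ φ.2)) (by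
    intro χ hχ χ' hχ' v hv τ hτ
    obtain ⟨φ, -, rfl⟩ := Finset.mem_image.mp hχ
    obtain ⟨φ', -, rfl⟩ := Finset.mem_image.mp hχ'
    rw [h4 φ v hv τ hτ, h4 φ' v hv τ hτ])
  rw [Finset.card_image_of_injective _ hXinj, Finset.card_univ, Fintype.card_coe] at h3
  exact h3

theorem fib (hp : p.Prime) (hζ : IsPrimitiveRoot ζ p) (D : RD0 K p ζ) (L : LDs D Ω)
    [Finite G] (Dg : GT p m u w N G) (z : K)
    (hz : IsPrimitiveRoot z (Nat.card G))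
    (hS : ∀ v : Pl K, ((Nat.card G : ℕ) : 𝓞 K) ∈ v.asIdeal → v ∈ D.S0) :
    ∃ C : ℕ, ∀ (E : Finset (Pl K)) (f : Fin N → Finset (Pl K)) (Rs : Finset (Gal(Ω/K) →* G)),
      (∀ φ ∈ Rs, H38.ML.FT φ) → (∀ φ ∈ Rs, ∀ i v, v ∈ f i ↔ Ty Dg L φ i v) →
      (∀ φ ∈ Rs, ∀ v, v ∈ E ↔ Rm L φ v ∧ ∀ i, ¬ Ty Dg L φ i v) →
      (∀ φ ∈ Rs, ∀ φ' ∈ Rs, ∀ σ, mkW Dg (φ σ) = mkW Dg (φ' σ)) →
      Rs.card ≤ C * Nat.card G ^ E.card *
        ∏ i, Nat.card {h : G // IsConj h (Dg.g i)} ^ (f i).card := by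
  obtain ⟨C, hC⟩ := fib_ag D L Dg z hz hS
  refine ⟨C, ?_⟩
  intro E f Rs hft hty hE hmk
  have hfin : Fintype G := Fintype.ofFinite G
  have h1 := fun v => uinr_cyc L (Nat.card G) hS (H := G) rfl Rs hft v
  choose τ hτ hτ2 using h1
  let ρ : (Gal(Ω/K) →* G) → (↥E → G) × ((i : Fin N) → (↥(f i) → G)) := fun φ =>
    (fun v => φ (τ v.1), fun i v => φ (L.t v.1))
  let T : Finset ((↥E → G) × ((i : Fin N) → (↥(f i) → G))) :=
    Finset.univ ×ˢ Fintype.piFinset (fun i => Fintype.piFinset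
      (fun _ : ↥(f i) => Finset.univ.filter fun h : G => IsConj h (Dg.g i)))
  have hmaps : ∀ φ ∈ Rs, ρ φ ∈ T := by
    intro φ hφ
    show ρ φ ∈ Finset.univ ×ˢ _
    rw [Finset.mem_product]
    refine ⟨Finset.mem_univ _, ?_⟩
    rw [Fintype.mem_piFinset]
    intro i
    rw [Fintype.mem_piFinset]
    intro v
    rw [Finset.mem_filter]
    exact ⟨Finset.mem_univ _, ((hty φ hφ i v.1).1 v.2).2.1⟩
  have hfib : ∀ b ∈ T, (Rs.filter fun φ => ρ φ = b).card ≤ C := by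
    intro b _
    refine hC _ (fun φ hφ => hft φ (Finset.mem_filter.1 hφ).1)
      (fun φ hφ φ' hφ' => hmk φ (Finset.mem_filter.1 hφ).1 φ' (Finset.mem_filter.1 hφ').1) ?_
    intro φ hφ φ' hφ' v hv σ hσ
    rw [Finset.mem_filter] at hφ hφ'
    have hρ : ρ φ = ρ φ' := hφ.2.trans hφ'.2.symm
    by_cases hvE : v ∈ E
    · obtain ⟨k, hk⟩ := hτ2 v σ hσ
      have h2 : φ (τ v) = φ' (τ v) := congrFun (congrArg Prod.fst hρ) ⟨v, hvE⟩
      rw [hk φ hφ.1, hk φ' hφ'.1, h2]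
    · by_cases hvf : ∃ i, v ∈ f i
      · obtain ⟨i, hi⟩ := hvf
        have h2 : φ (L.t v) = φ' (L.t v) := congrFun (congrFun (congrArg Prod.snd hρ) i) ⟨v, hi⟩
        rw [tm_z hp hζ L φ (hft φ hφ.1) v hv ((hty φ hφ.1 i v).1 hi).2.2 σ hσ,
          tm_z hp hζ L φ' (hft φ' hφ'.1) v hv ((hty φ' hφ'.1 i v).1 hi).2.2 σ hσ, h2]
      · have hone : ∀ χ ∈ Rs, χ σ = 1 := by
          intro χ hχ
          by_contra h3
          refine hvE ((hE χ hχ v).2 ⟨⟨hv, σ, hσ, h3⟩, fun i hi => hvf ⟨i, (hty χ hχ i v).2 hi⟩⟩)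
        rw [hone φ hφ.1, hone φ' hφ'.1]
  have h2 := Finset.card_le_mul_card_image_of_maps_to hmaps C hfib
  have h3 : T.card = Nat.card G ^ E.card *
      ∏ i, Nat.card {h : G // IsConj h (Dg.g i)} ^ (f i).card := by
    show (Finset.univ ×ˢ _ : Finset _).card = _
    rw [Finset.card_product, Fintype.card_piFinset, Finset.card_univ, Fintype.card_fun,
      Fintype.card_coe, Nat.card_eq_fintype_card]
    congr 1
    refine Finset.prod_congr rfl fun i _ => ?_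
    rw [Fintype.card_piFinset, Finset.prod_const, Finset.card_univ, Fintype.card_coe,
      Nat.card_eq_fintype_card, Fintype.card_subtype]
  rw [h3, ← mul_assoc] at h2
  exact h2

end H51.TC
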