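import Pool.Agent.H51.TC.Def

/-!
# TC-GFT: `gft` of H38/AS with the finiteness of the base homomorphisms as hypothesis
-/

set_option autoImplicit false

open scoped NumberField
open IsDedekindDomain
open scoped Classical

noncomputable section

namespace H51.TC

open H63.MA H38.BB H38.BG H38.AS

variable {K : Type} [Field K] [NumberField K] {Ω : Type} [Field Ω] [Algebra K Ω]
  [IsAlgClosure K Ω] {p m u w N : ℕ} {ζ : K} {G : Type} [Group G]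

theorem gft [Finite G] (hp : p.Prime) (hp2 : MOne p K) (hζ : IsPrimitiveRoot ζ p)
    (D : RD0 K p ζ) (L : LDs D Ω) (Q : DP K Ω) (Dg : GT p m u w N G)
    (hB : {β : Gal(Ω/K) →* G ⧸ WS Dg | IsB D L Dg β}.Finite) :
    ∃ R : Finset (Gal(Ω/K) →* G), (∀ φ ∈ R, H38.ML.FT φ) ∧
      ∀ φ : Gal(Ω/K) →* G, H38.ML.FT φ → (∀ v, Rm L φ v → ∃ i, Ty Dg L φ i v) →
        ∃ φ' ∈ R, Teq D.S0 Q φ φ' := by
  have : NeZero p := ⟨hp.ne_zero⟩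
  have hWp : ∀ x : Wg p w, x ^ p = 1 := fun x => wg_pow x
  obtain ⟨R'', hR1, hR2⟩ := hw_types (W := Wg p w) hp hp2 hζ D L Q hWp
  let Pr : (Gal(Ω/K) →* G ⧸ WS Dg) × (Fin N → Fin D.r → ZMod p) → (Gal(Ω/K) →* G) → Prop :=
    fun x φ₂ => ∃ f₀ : Fin N → Finset (Pl K),
      Ok D f₀ ∧ (∀ i, qf D (f₀ i) = x.2 i) ∧ φ₂ ∈ XB D L Dg x.1 f₀
  have hex : ∀ x, ∃ φ₂, (∃ φ, Pr x φ) → Pr x φ₂ := by
    intro x
    by_cases h : ∃ φ, Pr x φ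
    · obtain ⟨φ, hφ⟩ := h
      exact ⟨φ, fun _ => hφ⟩
    · exact ⟨1, fun h' => absurd h' h⟩
  choose pick hpick using hex
  let I : Finset ((Gal(Ω/K) →* G ⧸ WS Dg) × (Fin N → Fin D.r → ZMod p)) :=
    (hB.toFinset ×ˢ (Finset.univ : Finset (Fin N → Fin D.r → ZMod p))).filter
      (fun x => ∃ φ, Pr x φ)
  refine ⟨(I ×ˢ R'').image (fun x => twc Dg x.2 (pick x.1)), ?_, ?_⟩
  · intro φ hφ
    obtain ⟨x, hx, rfl⟩ := Finset.mem_image.1 hφ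
    obtain ⟨hxI, hxR⟩ := Finset.mem_product.1 hx
    obtain ⟨f₀, -, -, hX⟩ := hpick x.1 (Finset.mem_filter.1 hxI).2
    exact twc_ft Dg x.2 (pick x.1) (hR1 _ hxR) hX.1
  · intro φ hφ hty
    obtain ⟨f, -, hf, -⟩ := H63.BU.umain_sets L Dg φ hφ
    obtain ⟨β, hβ, hφX⟩ := gof hp hζ D L Dg φ hφ hty f hf
    have hok := (gof_ok D L Dg φ f hf).1
    have hexx : ∃ ψ, Pr (β, fun i => qf D (f i)) ψ := ⟨φ, f, hok, fun i => rfl, hφX⟩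
    have hxI : (β, fun i => qf D (f i)) ∈ I :=
      Finset.mem_filter.2 ⟨Finset.mem_product.2 ⟨hB.mem_toFinset.2 hβ, Finset.mem_univ _⟩, hexx⟩
    obtain ⟨f₀, hok0, hq0, hX0⟩ := hpick (β, fun i => qf D (f i)) hexx
    obtain ⟨δ, hδ1, hδ2⟩ := twc_loc hp hζ D Q Dg (pick (β, fun i => qf D (f i))) φ hX0.1 hφ (by
      intro v hv σ hσ
      rw [hφX.2.1 σ, hX0.2.1 σ, gtp hp hp2 hζ D Q Dg f f₀ hok.2 hok0.2
        (fun i => (hq0 i).symm) v hv σ hσ])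
    obtain ⟨δ', hδ'R, hδ'⟩ := hR2 δ hδ1
    refine ⟨twc Dg δ' (pick (β, fun i => qf D (f i))),
      Finset.mem_image.2 ⟨((β, fun i => qf D (f i)), δ'), Finset.mem_product.2 ⟨hxI, hδ'R⟩, rfl⟩, ?_⟩
    have h3 := (teq_twc Dg D.S0 Q δ δ' (pick (β, fun i => qf D (f i)))).2 hδ'
    intro v hv σ hσ
    exact (hδ2 v hv σ hσ).symm.trans (h3 v hv σ hσ)

end H51.TC
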