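import Pool.Agent.H51.TC.GFt

/-!
# TC-GTL: `gtl` of H38/AS with the finiteness of the base homomorphisms as hypothesis
-/

set_option autoImplicit false

open scoped NumberField
open IsDedekindDomain Filter Topology
open scoped Classical

noncomputable section

namespace H51.TC

open H63.MA H38.BB H38.BG H38.AS

variable {K : Type} [Field K] [NumberField K] {Ω : Type} [Field Ω] [Algebra K Ω]
  [IsAlgClosure K Ω] {p m u w N : ℕ} {ζ : K} {G : Type} [Group G]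

theorem gtl [Finite G] (hp : p.Prime) (hp2 : MOne p K) (hζ : IsPrimitiveRoot ζ p)
    (D : RD K p ζ) (L : LDs D.toRD0 Ω) (Q : DP K Ω)
    (Dg : GT p m u w N G) (hN : 1 ≤ N)
    (hcen : ∀ a : Fin w → ZMod p, a ≠ 0 → ∃ i, Dg.a i = a ∧ Dg.y i = 0)
    (hfin : {β : Gal(Ω/K) →* G ⧸ WS Dg | IsB D.toRD0 L Dg β}.Finite)
    (φ₁ : Gal(Ω/K) →* G) (hφ₁ : H38.ML.FT φ₁) :
    ∃ l : ℝ, Tendsto (fun X : ℝ => ((SY D.toRD0 L Q Dg φ₁ X).ncard : ℝ) /
      (X * Real.log X ^ (N - 1))) atTop (𝓝 l) := by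
  set Bs : Finset (Gal(Ω/K) →* G ⧸ WS Dg) := hfin.toFinset with hBs
  have hB : ∀ β, β ∈ Bs ↔ IsB D.toRD0 L Dg β := fun β => by
    rw [hBs, Set.Finite.mem_toFinset]
    rfl
  have hex : ∀ β : Gal(Ω/K) →* G ⧸ WS Dg, ∃ ε : Fin m → Kˣ, β ∈ Bs →
      EpB D.toRD0 Dg ε β := by
    intro β
    by_cases hβ : β ∈ Bs
    · obtain ⟨ε, hε⟩ := gep hp hζ D.toRD0 L Dg β ((hB β).1 hβ)
      exact ⟨ε, fun _ => hε⟩
    · exact ⟨fun _ => 1, fun h => absurd h hβ⟩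
  choose ε hε using hex
  have hlim : ∀ β ∈ Bs, ∃ l : ℝ, Tendsto (fun X : ℝ =>
      (∑ f ∈ Fintype.piFinset (fun _ : Fin N => GF D.toRD0 X),
        if Dj f ∧ ∏ i, nr (f i) ≤ X ∧ SpR Dg.cr (ε β) f ∧
            (∀ g : G ⧸ WS Dg, ∃ σ x, g = β σ * vqW Dg x) then
          (({φ ∈ XB D.toRD0 L Dg β f | Teq D.S0 Q φ φ₁}.ncard : ℕ) : ℝ) else 0) /
        (X * Real.log X ^ (N - 1))) atTop (𝓝 l) := by
    intro β hβ
    by_cases hs : ∀ g : G ⧸ WS Dg, ∃ σ x, g = β σ * vqW Dg x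
    · obtain ⟨l, hl⟩ := gtl_one hp hp2 hζ D L Q Dg hN hcen β ((hB β).1 hβ) (ε β) (hε β hβ) φ₁ hφ₁
      refine ⟨l, hl.congr fun X => ?_⟩
      congr 1
      refine Finset.sum_congr rfl fun f _ => ?_
      refine if_congr ?_ rfl rfl
      constructor
      · rintro ⟨h1, h2, h3⟩
        exact ⟨h1, h2, h3, hs⟩
      · rintro ⟨h1, h2, h3, -⟩
        exact ⟨h1, h2, h3⟩
    · refine ⟨0, tendsto_const_nhds.congr fun X => ?_⟩
      rw [Finset.sum_eq_zero fun f _ => if_neg fun h => hs h.2.2.2, zero_div]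
  choose! l hl using hlim
  refine ⟨∑ β ∈ Bs, l β, ?_⟩
  have hsum := tendsto_finsetSum Bs fun β hβ => hl β hβ
  refine hsum.congr fun X => ?_
  rw [(gsy hp hζ D.toRD0 L Q Dg Bs hB ε (fun β hβ => hε β hβ) φ₁ X).2, Finset.sum_div]

end H51.TC
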