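import Pool.Agent.H51.TC.Def

/-!
# TC-LED: ramified primes of no type (in the wide sense) have index at least `a + 1`
-/

set_option autoImplicit false

open scoped NumberField
open IsDedekindDomain
open scoped Classical

noncomputable section

namespace H51.TC

open H63.MA H38.BB H38.BG H38.AS H63.BU

variable {K : Type} [Field K] [NumberField K] {Ω : Type} [Field Ω] [Algebra K Ω] [IsAlgClosure K Ω]
  {p : ℕ} {ζ : K} {m u w N : ℕ}

theorem led (hp : p.Prime) (hζ : IsPrimitiveRoot ζ p) {D : RD0 K p ζ} (L : LDs D Ω)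
    {G : Type} [Group G] [Finite G] (Dg : GT p m u w N G)
    (hS : ∀ v : Pl K, ((Nat.card G : ℕ) : 𝓞 K) ∈ v.asIdeal → v ∈ D.S0) (a : ℕ)
    (ix : Subgroup G → ℕ)
    (h2 : ∀ g : G, g ≠ 1 → ix (Subgroup.zpowers g) ≤ a → ∃ i, IsConj g (Dg.g i))
    (φ : Gal(Ω/K) →* G) (hφ : H38.ML.FT φ) (v : Pl K) (hv : Rm L φ v) :
    (∃ i, Ti Dg L φ i v) ∨ a + 1 ≤ ix ((inr L v).map φ) := by
  obtain ⟨hvS, τ₀, hτ₀, hne⟩ := hv
  have hJ : (inr L v).map φ ≠ ⊥ := by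
    intro h
    have h3 : φ τ₀ ∈ (inr L v).map φ := Subgroup.mem_map_of_mem φ hτ₀
    rw [h] at h3
    exact hne (Subgroup.mem_bot.1 h3)
  by_cases hix : ix ((inr L v).map φ) ≤ a
  · left
    obtain ⟨τ, hτ, hg⟩ := uinr_gen L (Nat.card G) hS rfl φ hφ v
    have hτ1 : φ τ ≠ 1 := by
      intro h
      apply hJ
      rw [hg, h]
      exact Subgroup.zpowers_one_eq_bot
    obtain ⟨i, hi⟩ := h2 (φ τ) hτ1 (by rw [← hg]; exact hix)
    have hp1 : φ τ ^ p = 1 := by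
      have h4 : IsConj ((φ τ) ^ p) ((Dg.g i) ^ p) := hi.pow p
      have h5 : Dg.g i ^ p = 1 := Dg.pow i
      rw [h5] at h4
      exact isConj_one_left.1 h4
    have hpow : ∀ σ ∈ inr L v, φ σ ^ p = 1 := by
      intro σ hσ
      have h3 : φ σ ∈ (inr L v).map φ := Subgroup.mem_map_of_mem φ hσ
      rw [hg] at h3
      obtain ⟨k, hk⟩ := Subgroup.mem_zpowers_iff.1 h3
      rw [← hk, ← zpow_natCast, ← zpow_mul, mul_comm, zpow_mul, zpow_natCast, hp1, one_zpow]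
    have hJt : (inr L v).map φ = Subgroup.zpowers (φ (L.t v)) := by
      apply le_antisymm
      · rintro x ⟨σ, hσ, rfl⟩
        rw [tm_z hp hζ L φ hφ v hvS hpow σ hσ]
        exact Subgroup.pow_mem _ (Subgroup.mem_zpowers _) _
      · rw [Subgroup.zpowers_le]
        exact Subgroup.mem_map_of_mem φ (uinr_t L v)
    have ht1 : φ (L.t v) ≠ 1 := by
      intro h
      apply hJ
      rw [hJt, h]
      exact Subgroup.zpowers_one_eq_bot
    obtain ⟨i', hi'⟩ := h2 (φ (L.t v)) ht1 (by rw [← hJt]; exact hix)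
    exact ⟨i', hvS, hi', hpow⟩
  · right
    omega

omit [IsAlgClosure K Ω] in
theorem ti_ne {D : RD0 K p ζ} (L : LDs D Ω) {G : Type} [Group G] (Dg : GT p m u w N G)
    (φ : Gal(Ω/K) →* G) (i : Fin N) (v : Pl K) (hv : Ti Dg L φ i v) : φ (L.t v) ≠ 1 := by
  intro h
  have h1 := hv.2.1
  rw [h] at h1
  exact Dg.ne i (isConj_one_right.1 h1)

omit [IsAlgClosure K Ω] in
theorem ti_rm {D : RD0 K p ζ} (L : LDs D Ω) {G : Type} [Group G] (Dg : GT p m u w N G)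
    (φ : Gal(Ω/K) →* G) (i : Fin N) (v : Pl K) (hv : Ti Dg L φ i v) :
    Rm L φ v ∧ (inr L v).map φ ≠ ⊥ := by
  have hne := ti_ne L Dg φ i v hv
  refine ⟨⟨hv.1, L.t v, uinr_t L v, hne⟩, fun h => ?_⟩
  have h3 : φ (L.t v) ∈ (inr L v).map φ := Subgroup.mem_map_of_mem φ (uinr_t L v)
  rw [h] at h3
  exact hne (Subgroup.mem_bot.1 h3)

omit [IsAlgClosure K Ω] in
theorem ti_uni {D : RD0 K p ζ} (L : LDs D Ω) {G : Type} [Group G] (Dg : GT p m u w N G)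
    (φ : Gal(Ω/K) →* G) (i j : Fin N) (v : Pl K) (hi : Ti Dg L φ i v) (hj : Ti Dg L φ j v) :
    i = j :=
  Dg.uni i j (hi.2.1.symm.trans hj.2.1)

omit [IsAlgClosure K Ω] in
theorem ti_ty {D : RD0 K p ζ} (L : LDs D Ω) {G : Type} [Group G] (Dg : GT p m u w N G)
    (φ : Gal(Ω/K) →* G) (i : Fin N) (v : Pl K) :
    Ty Dg L φ i v ↔ Ti Dg L φ i v ∧ (nm v).Prime :=
  ⟨fun h => ⟨⟨h.1.1, h.2.1, h.2.2⟩, h.1.2⟩, fun h => ⟨⟨h.1.1, h.2⟩, h.1.2.1, h.1.2.2⟩⟩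

/-- the sets of the wide types and the set of the other ramified primes -/
theorem ti_sets {D : RD0 K p ζ} (L : LDs D Ω) {G : Type} [Group G] [Finite G]
    (Dg : GT p m u w N G) (φ : Gal(Ω/K) →* G) (hφ : H38.ML.FT φ) :
    ∃ (h : Fin N → Finset (Pl K)) (A : Finset (Pl K)),
      (∀ i v, v ∈ h i ↔ Ti Dg L φ i v) ∧ ∀ v, v ∈ A ↔ Rm L φ v ∧ ∀ i, ¬ Ti Dg L φ i v := by
  have hfin := uinr_fin L φ hφ
  have h1 : ∀ i, {v : Pl K | Ti Dg L φ i v}.Finite := fun i =>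
    hfin.subset fun v hv => (ti_rm L Dg φ i v hv).1
  have h2 : {v : Pl K | Rm L φ v ∧ ∀ i, ¬ Ti Dg L φ i v}.Finite := hfin.subset fun v hv => hv.1
  exact ⟨fun i => (h1 i).toFinset, h2.toFinset, fun i v => by
    rw [Set.Finite.mem_toFinset]
    rfl, fun v => by
    rw [Set.Finite.mem_toFinset]
    rfl⟩

end H51.TC
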