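import Pool.Agent.H51.TC.W1p
import Pool.Agent.H51.TC.Cfb

/-!
The asymptotic of Malle's conjecture (question Q1) for transitive groups `G` which are nilpotent or `A_4`
modulo a term of the upper central series and whose elements of least index lie in the second centre,
unless all of them commute and none of them is central. The definitions used in the statement are in
`Pool/Agent/H38/ML/Spec.lean`. Draft of the final hand-in (branch (i) of T2).
-/

open H38.ML.Spec

theorem H51.TC.res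
    (n : ℕ) (hn : 2 ≤ n) (G : Subgroup (Equiv.Perm (Fin n)))
    (hG : MulAction.IsPretransitive G (Fin n))
    (hnil : Group.IsNilpotent G ∨ ∃ k : ℕ,
      Nonempty (G ⧸ Subgroup.upperCentralSeries G k ≃* alternatingGroup (Fin 4)))
    (hZ : ∀ g : G, g ≠ 1 → ind (g : Equiv.Perm (Fin n)) = indG G →
      ∀ h k : G, k * (g * h * g⁻¹ * h⁻¹) = g * h * g⁻¹ * h⁻¹ * k)
    (hc : (∃ g : G, g ≠ 1 ∧ ind (g : Equiv.Perm (Fin n)) = indG G ∧ ∀ h : G, g * h = h * g) ∨
      ∃ g h : G, g ≠ 1 ∧ ind (g : Equiv.Perm (Fin n)) = indG G ∧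
        h ≠ 1 ∧ ind (h : Equiv.Perm (Fin n)) = indG G ∧ g * h ≠ h * g) :
    ∃ K₀ : IntermediateField ℚ (AlgebraicClosure ℚ), NumberField K₀ ∧
      ∀ K : IntermediateField ℚ (AlgebraicClosure ℚ), K₀ ≤ K → ∀ _ : NumberField K,
        (∀ B : ℝ, nK K (AlgebraicClosure ℚ) G B ≠ ⊤) ∧
        ∃ C : ℝ, 0 < C ∧ Filter.Tendsto
          (fun B : ℝ => ((nK K (AlgebraicClosure ℚ) G B).toNat : ℝ) /
            (B ^ (1 / (indG G : ℝ)) * Real.log B ^ (betaAll K (AlgebraicClosure ℚ) G - 1)))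
          Filter.atTop (nhds C) := by
  have hCF : H51.TC.CF G := by
    rcases hnil with h | ⟨k, h⟩
    · exact H51.TC.cf_nil h
    · exact H51.TC.cf_a4 k h
  obtain ⟨K₀, hK₀, h⟩ := H51.TC.sc_main H51.TC.w1p hn G hG hCF hZ hc
  refine ⟨K₀, hK₀, fun K hK hKf => ?_⟩
  obtain ⟨C, hC, k, hk, hlim⟩ := h K hK hKf
  refine ⟨fun B => ?_, C, hC, ?_⟩
  · have h := hk B
    exact fun h' => ENat.natCast_ne_top (k B) (h.symm.trans h')
  · refine hlim.congr fun B => ?_
    have h : (nK K (AlgebraicClosure ℚ) G B).toNat = k B :=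
      (congrArg ENat.toNat (hk B)).trans (ENat.toNat_natCast _)
    rw [h]
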